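import Pool.Agent.H51.LZ.LG

/-!
# Discs in charts
-/

set_option autoImplicit false

open Set Filter Topology Metric MeasureTheory
open scoped Manifold

namespace Pool.Agent.H51.LZ

theorem exists_radius {S : Set ℂ} (hS : IsOpen S) (h : closedBall (0 : ℂ) 1 ⊆ S) :
    ∃ R : ℝ, 1 < R ∧ closedBall (0 : ℂ) R ⊆ S := by
  obtain ⟨δ, hδ, hsub⟩ := (isCompact_closedBall (0 : ℂ) 1).exists_cthickening_subset_open hS h
  refine ⟨1 + δ, by linarith, ?_⟩
  rw [cthickening_closedBall hδ.le zero_le_one] at hsub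
  rwa [add_comm]

variable {n : ℕ} {X : Type} [TopologicalSpace X] [ChartedSpace (Cn n) X]

/-- a disc in an open set extends a little -/
theorem IsDisc.exists_larger {U : Set X} {h : ℂ → X} (hd : IsDisc n U h) (hU : IsOpen U) :
    ∃ R : ℝ, 1 < R ∧ MDifferentiableOn 𝓘(ℂ, ℂ) 𝓘(ℂ, Cn n) h (ball 0 R) ∧
      ∀ z : ℂ, ‖z‖ ≤ R → h z ∈ U ∧ ContinuousAt h z := by
  obtain ⟨⟨R, hR, hm⟩, hmap⟩ := hd
  have hS : IsOpen (ball (0 : ℂ) R ∩ h ⁻¹' U) := hm.continuousOn.isOpen_inter_preimage isOpen_ball hU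
  obtain ⟨R', hR', hsub⟩ := exists_radius hS (fun z hz => ⟨closedBall_subset_ball hR hz,
    hmap z (by simpa using hz)⟩)
  refine ⟨R', hR', hm.mono fun z hz => (hsub (ball_subset_closedBall hz)).1, fun z hz => ?_⟩
  have h1 := hsub (show z ∈ closedBall (0 : ℂ) R' by simpa using hz)
  exact ⟨h1.2, hm.continuousOn.continuousAt (isOpen_ball.mem_nhds h1.1)⟩

/-- discs in charts -/
theorem isDisc_of_chart [IsManifold 𝓘(ℂ, Cn n) 1 X] {e : OpenPartialHomeomorph X (Cn n)}
    (he : e ∈ atlas (Cn n) X) {f : ℂ → Cn n} {R : ℝ} (hR : 1 < R)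
    (hf : DifferentiableOn ℂ f (ball 0 R)) {U : Set X}
    (hmap : ∀ z : ℂ, ‖z‖ ≤ 1 → f z ∈ e.target ∧ e.symm (f z) ∈ U) :
    IsDisc n U (fun z => e.symm (f z)) := by
  have hS : IsOpen (ball (0 : ℂ) R ∩ f ⁻¹' e.target) :=
    hf.continuousOn.isOpen_inter_preimage isOpen_ball e.open_target
  obtain ⟨R', hR', hsub⟩ := exists_radius hS (fun z hz => ⟨closedBall_subset_ball hR hz,
    (hmap z (by simpa using hz)).1⟩)
  refine ⟨⟨R', hR', ?_⟩, fun z hz => (hmap z hz).2⟩
  have h1 : MDifferentiableOn 𝓘(ℂ, Cn n) 𝓘(ℂ, Cn n) e.symm e.target :=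
    mdifferentiableOn_atlas_symm he
  have h2 : MDifferentiableOn 𝓘(ℂ, ℂ) 𝓘(ℂ, Cn n) f (ball 0 R') := by
    rw [mdifferentiableOn_iff_differentiableOn]
    exact hf.mono fun z hz => (hsub (ball_subset_closedBall hz)).1
  exact h1.comp h2 fun z hz => (hsub (ball_subset_closedBall hz)).2

/-- affine discs in charts -/
theorem isDisc_affine [IsManifold 𝓘(ℂ, Cn n) 1 X] {e : OpenPartialHomeomorph X (Cn n)}
    (he : e ∈ atlas (Cn n) X) (a v : Cn n) {U : Set X}
    (hmap : ∀ z : ℂ, ‖z‖ ≤ 1 → a + z • v ∈ e.target ∧ e.symm (a + z • v) ∈ U) :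
    IsDisc n U (fun z => e.symm (a + z • v)) :=
  isDisc_of_chart he (f := fun z => a + z • v) one_lt_two (by fun_prop) hmap

/-- the sub-mean value inequality for a continuous function -/
theorem Psh.le_average {U : Set X} {f : X → ℝ} (hf : Psh n U (fun x => (f x : EReal)))
    (hc : ContinuousOn f U) {h : ℂ → X} (hd : IsDisc n U h) :
    f (h 0) ≤ Real.circleAverage (fun z => f (h z)) 0 1 := by
  have h1 := hf.2.2 h hd (fun z => f (h z)) ?_ (fun z _ => le_rfl)
  · exact EReal.coe_le_coe_iff.1 h1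
  · exact (hc.comp hd.continuousOn fun z hz => hd.2 z (by simpa using hz)).mono
      sphere_subset_closedBall

/-- a continuous function with the sub-mean value inequality is plurisubharmonic -/
theorem psh_of_le_average {U : Set X} {f : X → ℝ} (hc : ContinuousOn f U)
    (hle : ∀ h : ℂ → X, IsDisc n U h → f (h 0) ≤ Real.circleAverage (fun z => f (h z)) 0 1) :
    Psh n U (fun x => (f x : EReal)) := by
  refine ⟨(continuous_coe_real_ereal.comp_continuousOn hc).upperSemicontinuousOn,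
    fun x _ => EReal.coe_ne_top _, fun h hd b hb hbd => ?_⟩
  have h1 : ContinuousOn (fun z => f (h z)) (sphere 0 |1|) := by
    rw [abs_one]
    exact (hc.comp hd.continuousOn fun z hz => hd.2 z (by simpa using hz)).mono
      sphere_subset_closedBall
  have h2 : ContinuousOn b (sphere 0 |1|) := by rwa [abs_one]
  have h3 : f (h 0) ≤ Real.circleAverage b 0 1 := by
    refine (hle h hd).trans (Real.circleAverage_mono h1.circleIntegrable' h2.circleIntegrable' ?_)
    intro z hz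
    rw [abs_one] at hz
    exact EReal.coe_le_coe_iff.1 (hbd z hz)
  exact EReal.coe_le_coe_iff.2 h3

end Pool.Agent.H51.LZ
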