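import Pool.Agent.H51.LZ.Main

/-!
# From a continuous invariant potential to the conclusions
-/

set_option autoImplicit false

open Set Filter Topology Metric MeasureTheory
open scoped Manifold ENNReal

namespace Pool.Agent.H51.LZ

variable {n : ℕ} {X : Type} [TopologicalSpace X] [ChartedSpace (Cn n) X]

theorem zeroLelong_of_bounded {φ : X → EReal} {B : ℝ} (hB : ∀ x, ((-B : ℝ) : EReal) ≤ φ x) (x : X) :
    ZeroLelongAt n φ x := by
  intro e _ hx ε hε
  have h1 : Tendsto (fun r : ℝ => ε * Real.log r) (𝓝[>] 0) atBot :=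
    Tendsto.const_mul_atBot hε Real.tendsto_log_nhdsGT_zero
  filter_upwards [h1.eventually (eventually_le_atBot (-B)), self_mem_nhdsWithin] with r hr hr0
  refine ⟨x, hx, ?_, le_trans ?_ (hB x)⟩
  · rw [sub_self, norm_zero]
    exact (mem_Ioi.1 hr0).le
  · exact_mod_cast hr

/-- The statement for odd `d`. -/
def OddCase (n : ℕ) (X : Type) [TopologicalSpace X] [ChartedSpace (Cn n) X] [MeasurableSpace X] :
    Prop :=
  ∀ (μ : Measure X) (_ : IsProbabilityMeasure μ), SupBound n μ → ∀ (T : Currents n X) (d : ℕ),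
    Odd d → ∀ g : X ≃ₜ X, MeasurePreserving g μ μ → MDifferentiable 𝓘(ℂ, Cn n) 𝓘(ℂ, Cn n) g →
    MDifferentiable 𝓘(ℂ, Cn n) 𝓘(ℂ, Cn n) g.symm →
    (∀ p, Psh n (T.V p) (fun x => (T.u 0 p x : EReal))) → (∀ p x, T.u (d + 1) p x = 0) →
    ∀ a : ℕ → C(X, ℝ), (∀ j ≤ d, ∫ x, a j x ∂μ = 0) →
    (∀ j ≤ d, ∀ p q, Pluriharmonic n (T.V p ∩ g ⁻¹' T.V q)
      (fun x => T.u j q (g x) - T.u j p x - T.u (j + 1) p x - a j x)) →
    ∃ φ : C(X, ℝ), (∀ p, Pluriharmonic n (T.V p) (fun x => T.u d p x + φ x)) ∧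
      ∀ x, φ x = a d x + φ (g x)

theorem main_any [T2Space X] [CompactSpace X] [ConnectedSpace X] [IsManifold 𝓘(ℂ, Cn n) 1 X]
    [MeasurableSpace X] [BorelSpace X] (hLEL : OrbitClosure n X) (hodd : OddCase n X)
    (Ω : VolumeForm n X) (d : ℕ) (g : X ≃ₜ X)
    (hg : MDifferentiable 𝓘(ℂ, Cn n) 𝓘(ℂ, Cn n) g)
    (hg' : MDifferentiable 𝓘(ℂ, Cn n) 𝓘(ℂ, Cn n) g.symm) (T : Currents n X)
    (hpos : ∀ p, Psh n (T.V p) (fun x => (T.u 0 p x : EReal)))
    (a : ℕ → X → ℝ) (ha : ∀ j, Continuous (a j))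
    (hrel : ∀ j < d, ∀ p q, Pluriharmonic n (T.V p ∩ g ⁻¹' T.V q)
      (fun x => T.u j q (g x) - T.u j p x - T.u (j + 1) p x - a j x))
    (hrel_top : ∀ p q, Pluriharmonic n (T.V p ∩ g ⁻¹' T.V q)
      (fun x => T.u d q (g x) - T.u d p x - a d x)) :
    ∃ (φ : X → EReal) (c C : ℝ),
      (∀ p, Psh n (T.V p) (fun x => (T.u d p x : EReal) + φ x)) ∧
      (∀ x, φ x = ((a d x - c : ℝ) : EReal) + φ (g x)) ∧
      (∀ x, ZeroLelongAt n φ x) ∧
      (∀ K : Set X, IsClosed K → K.Nonempty → MapsTo g K K → ∃ x ∈ K, ((-C : ℝ) : EReal) ≤ φ x) ∧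
      ∀ ν : Measure X, IsProbabilityMeasure ν → MeasurePreserving g ν ν →
        ∫⁻ x, (-(φ x)).toENNReal ∂ν ≤ ENNReal.ofReal C := by
  rcases Nat.even_or_odd d with hd | hd
  · exact main_of hLEL Ω d hd g hg hg' T hpos a ha hrel hrel_top
  obtain ⟨μ, hμ, hgμ⟩ := Pool.Agent.H78.LZ.exists_invariant_measure Ω g hg
  have hprob : IsProbabilityMeasure μ := hμ.1
  have hsup : SupBound n μ := fun V hV hp => Pool.Agent.H36.LZ.sup_le_mean hμ hV hp
  let b : ℕ → C(X, ℝ) := fun j => ⟨fun x => a j x - ∫ y, a j y ∂μ, (ha j).sub continuous_const⟩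
  have hb : ∀ j ≤ d, ∫ x, b j x ∂μ = 0 := by
    intro j _
    change ∫ x, (a j x - ∫ y, a j y ∂μ) ∂μ = 0
    rw [integral_sub]
    · simp
    · exact (ha j).integrable_of_hasCompactSupport (HasCompactSupport.of_compactSpace _)
    · exact integrable_const _
  have hconst : ∀ (U : Set X) (c : ℝ), Pluriharmonic n U (fun _ => c) := fun U c =>
    ⟨continuousOn_const, fun h _ => by rw [Real.circleAverage_const]⟩
  have hzero : ∀ p x, (T.cut d).u (d + 1) p x = 0 := by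
    intro p x
    simp [Currents.cut]
  have hrel' : ∀ j ≤ d, ∀ p q, Pluriharmonic n ((T.cut d).V p ∩ g ⁻¹' (T.cut d).V q)
      (fun x => (T.cut d).u j q (g x) - (T.cut d).u j p x - (T.cut d).u (j + 1) p x - b j x) := by
    intro j hj p q
    rcases lt_or_eq_of_le hj with hlt | rfl
    · refine ((hrel j hlt p q).add (hconst _ (∫ y, a j y ∂μ))).congr fun x _ => ?_
      rw [Currents.cut_u hj, Currents.cut_u hlt]
      change _ - (a j x - ∫ y, a j y ∂μ) = _
      ring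
    · refine ((hrel_top p q).add (hconst _ (∫ y, a j y ∂μ))).congr fun x _ => ?_
      rw [Currents.cut_u le_rfl, hzero]
      change _ - (a j x - ∫ y, a j y ∂μ) = _
      ring
  have hpos' : ∀ p, Psh n ((T.cut d).V p) (fun x => ((T.cut d).u 0 p x : EReal)) := by
    intro p
    rw [Currents.cut_u (Nat.zero_le d)]
    exact hpos p
  obtain ⟨φ, hφ, hinv⟩ := hodd μ hprob hsup (T.cut d) d hd g hgμ hg hg' hpos' hzero b hb hrel'
  have hlow : ∀ x, ((-‖φ‖ : ℝ) : EReal) ≤ ((φ x : ℝ) : EReal) := by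
    intro x
    have := φ.norm_coe_le_norm x
    rw [Real.norm_eq_abs] at this
    exact_mod_cast (abs_le.1 this).1
  refine ⟨fun x => (φ x : EReal), ∫ y, a d y ∂μ, ‖φ‖, ?_, ?_, zeroLelong_of_bounded hlow, ?_, ?_⟩
  · intro p
    have h1 := hφ p
    rw [Currents.cut_u le_rfl] at h1
    have h2 : Psh n (T.V p) (fun x => ((T.u d p x + φ x : ℝ) : EReal)) :=
      psh_of_le_average h1.1 fun h hd => (h1.2 h hd).le
    refine ⟨?_, ?_, ?_⟩
    · simpa only [EReal.coe_add] using h2.1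
    · simpa only [EReal.coe_add] using h2.2.1
    · simpa only [EReal.coe_add] using h2.2.2
  · intro x
    have h1 : φ x = (a d x - ∫ y, a d y ∂μ) + φ (g x) := hinv x
    change ((φ x : ℝ) : EReal) = ((a d x - ∫ y, a d y ∂μ : ℝ) : EReal) + ((φ (g x) : ℝ) : EReal)
    rw [← EReal.coe_add, ← h1]
  · intro K _ hKne _
    obtain ⟨x, hx⟩ := hKne
    exact ⟨x, hx, hlow x⟩
  · intro ν _ _
    calc ∫⁻ x, (-((φ x : ℝ) : EReal)).toENNReal ∂ν ≤ ∫⁻ _x, ENNReal.ofReal ‖φ‖ ∂ν := by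
          refine lintegral_mono fun x => ?_
          rw [← EReal.coe_neg, EReal.toENNReal_of_ne_top (EReal.coe_ne_top _), EReal.toReal_coe]
          refine ENNReal.ofReal_le_ofReal ?_
          have := hlow x
          have h2 : -‖φ‖ ≤ φ x := by exact_mod_cast this
          linarith
      _ = ENNReal.ofReal ‖φ‖ := by simp

end Pool.Agent.H51.LZ
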