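import Pool.Agent.H51.LZ.Vk

/-!
# Growth of the potentials
-/

set_option autoImplicit false

open Set Filter Topology Metric MeasureTheory
open scoped Manifold

namespace Pool.Agent.H51.LZ

variable {n : ℕ} {X : Type} [TopologicalSpace X] [ChartedSpace (Cn n) X]

theorem psh_affine {U : Set X} {f : X → ℝ} (hf : Psh n U (fun x => (f x : EReal)))
    (hc : ContinuousOn f U) {c : ℝ} (hc0 : 0 ≤ c) (b : ℝ) :
    Psh n U (fun x => ((c * f x + b : ℝ) : EReal)) := by
  refine psh_of_le_average ((hc.const_smul c).add continuousOn_const) fun h hd => ?_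
  have h1 := hf.le_average hc hd
  have i1 := Pluriharmonic.integrable hc hd
  have h2 : Real.circleAverage (fun z => c * f (h z) + b) 0 1 =
      c * Real.circleAverage (fun z => f (h z)) 0 1 + b := by
    have i2 : CircleIntegrable (fun z => c * f (h z)) 0 1 :=
      Pluriharmonic.integrable (f := fun x => c * f x) (hc.const_smul c) hd
    rw [Real.circleAverage_fun_add i2 (continuousOn_const.circleIntegrable'),
      Real.circleAverage_const]
    have h3 := Real.circleAverage_fun_smul (a := c) (f := fun z => f (h z)) (c := 0) (R := 1)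
    simp only [smul_eq_mul] at h3
    rw [h3]
  rw [h2]
  have := mul_le_mul_of_nonneg_left h1 hc0
  linarith

variable [MeasurableSpace X]

/-- The bound `sup ≤ mean + C` for quasi-plurisubharmonic functions. -/
def SupBound (n : ℕ) {X : Type} [TopologicalSpace X] [ChartedSpace (Cn n) X] [MeasurableSpace X]
    (μ : Measure X) : Prop :=
  ∀ V : X → Set X, (∀ p, IsOpen (V p)) → (∀ p, p ∈ V p) → ∃ C : ℝ, ∀ F : X → ℝ, Continuous F →
    (∀ p, ∃ s : X → ℝ, ContinuousOn s (V p) ∧ (∀ x ∈ V p, |s x| ≤ 1) ∧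
      Psh n (V p) (fun x => ((s x + F x : ℝ) : EReal))) →
    ∀ x, F x ≤ (∫ y, F y ∂μ) + C

namespace Currents

variable {T : Currents n X} {d : ℕ} {g : X ≃ₜ X}

theorem growth {μ : Measure X} (hμ : SupBound n μ)
    (hg : MDifferentiable 𝓘(ℂ, Cn n) 𝓘(ℂ, Cn n) g)
    (hg' : MDifferentiable 𝓘(ℂ, Cn n) 𝓘(ℂ, Cn n) g.symm)
    (hpos : ∀ p, Psh n (T.V p) (fun x => (T.u 0 p x : EReal))) :
    ∃ C : ℝ, ∀ (k : ℤ) (F : X → ℝ), Continuous F → T.Is d g k F → ∫ y, F y ∂μ = 0 →
      ∀ x, F x ≤ C * Mk d k := by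
  -- neighbourhoods on which the potentials vary by less than one
  set V' : X → Set X := fun p => T.V p ∩ {x | ∀ j ∈ Finset.range (d + 1),
    |T.u j p x - T.u j p p| < 1} with hV'
  have hV'o : ∀ p, IsOpen (V' p) := by
    intro p
    have h1 : V' p = T.V p ∩ ⋂ j ∈ Finset.range (d + 1), T.V p ∩
        (fun x => |T.u j p x - T.u j p p|) ⁻¹' Iio 1 := by
      ext x
      simp only [hV', mem_inter_iff, mem_setOf_eq, mem_iInter, mem_preimage, mem_Iio]
      exact ⟨fun h => ⟨h.1, fun j hj => ⟨h.1, h.2 j hj⟩⟩, fun h => ⟨h.1, fun j hj => (h.2 j hj).2⟩⟩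
    rw [h1]
    refine (T.isOpen_V p).inter (isOpen_biInter_finset fun j _ => ?_)
    exact (((T.cont j p).sub continuousOn_const).abs).isOpen_inter_preimage (T.isOpen_V p)
      isOpen_Iio
  have hV'm : ∀ p, p ∈ V' p := fun p => ⟨T.mem_V p, fun j _ => by simp⟩
  obtain ⟨C, hC⟩ := hμ V' hV'o hV'm
  refine ⟨C, fun k F hF hIs hint x => ?_⟩
  have hM : 0 < Mk d k := zero_lt_one.trans_le (one_le_Mk d k)
  have h1 := hC (fun x => (Mk d k)⁻¹ * F x) (continuous_const.mul hF) (fun p => ?_) x
  · rw [integral_const_mul, hint, mul_zero, zero_add] at h1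
    rw [inv_mul_le_iff₀ hM] at h1
    linarith
  · have hPc : ContinuousOn (T.P d k p) (T.V p) := by
      unfold P
      exact continuousOn_finsetSum _ fun j _ => continuousOn_const.mul (T.cont j p)
    refine ⟨fun x => (Mk d k)⁻¹ * (T.P d k p x - T.P d k p p), ?_, ?_, ?_⟩
    · exact continuousOn_const.mul
        ((hPc.mono (fun x (hx : x ∈ V' p) => hx.1)).sub continuousOn_const)
    · intro x hx
      rw [abs_mul, abs_of_pos (inv_pos.2 hM), inv_mul_le_iff₀ hM, mul_one]
      have h2 : T.P d k p x - T.P d k p p =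
          ∑ j ∈ Finset.range (d + 1), bc k j * (T.u j p x - T.u j p p) := by
        simp only [P]
        rw [← Finset.sum_sub_distrib]
        exact Finset.sum_congr rfl fun j _ => by ring
      rw [h2, Mk]
      refine (Finset.abs_sum_le_sum_abs _ _).trans (Finset.sum_le_sum fun j hj => ?_)
      rw [abs_mul]
      exact mul_le_of_le_one_right (abs_nonneg _) (hx.2 j hj).le
    · have h3 := (hIs.psh hg hg' hpos hF p).mono (U' := V' p) (fun x hx => hx.1)
      have h4 := psh_affine h3 ((hPc.mono (fun x (hx : x ∈ V' p) => hx.1)).add hF.continuousOn)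
        (inv_nonneg.2 hM.le) (-((Mk d k)⁻¹ * T.P d k p p))
      have h5 : (fun x => (((Mk d k)⁻¹ * (T.P d k p x + F x) + -((Mk d k)⁻¹ * T.P d k p p) : ℝ) :
          EReal)) = fun x => (((Mk d k)⁻¹ * (T.P d k p x - T.P d k p p) +
            (Mk d k)⁻¹ * F x : ℝ) : EReal) := by
        ext x
        congr 1
        ring
      rw [h5] at h4
      exact h4

end Currents

end Pool.Agent.H51.LZ
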