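import Pool.Agent.H51.LZ.Lim
import Pool.Agent.H51.LZ.Gro

/-!
# Rules for relaxed upper limits
-/

set_option autoImplicit false

open Set Filter Topology Metric MeasureTheory Asymptotics
open scoped Manifold

namespace Pool.Agent.H51.LZ

theorem rlim_add {ι X : Type} [TopologicalSpace X] {l : Filter ι} [NeBot l] {w : ι → X → EReal}
    {s : ι → X → ℝ} {x : X} {S : ℝ}
    (hs : Tendsto (fun q : ι × X => s q.1 q.2) (l ×ˢ 𝓝 x) (𝓝 S)) :
    rlim l (fun i y => (s i y : EReal) + w i y) x = (S : EReal) + rlim l w x := by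
  have h1 : Tendsto (fun q : ι × X => (s q.1 q.2 : EReal)) (l ×ˢ 𝓝 x) (𝓝 (S : EReal)) :=
    (continuous_coe_real_ereal.tendsto S).comp hs
  have h2 := h1.limsup_eq
  have h3 := h1.liminf_eq
  refine le_antisymm ?_ ?_
  · have h4 := EReal.limsup_add_le (f := l ×ˢ 𝓝 x) (u := fun q : ι × X => (s q.1 q.2 : EReal))
      (v := fun q : ι × X => w q.1 q.2) (by rw [h2]; exact Or.inl (EReal.coe_ne_bot _))
      (by rw [h2]; exact Or.inl (EReal.coe_ne_top _))
    rw [h2] at h4
    exact h4
  · have h4 := EReal.le_limsup_add (f := l ×ˢ 𝓝 x) (v := fun q : ι × X => (s q.1 q.2 : EReal))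
      (u := fun q : ι × X => w q.1 q.2)
    rw [h3] at h4
    have h5 : (fun q : ι × X => w q.1 q.2) + (fun q : ι × X => (s q.1 q.2 : EReal)) =
        fun q : ι × X => (s q.1 q.2 : EReal) + w q.1 q.2 := by
      ext q
      exact add_comm _ _
    rw [h5] at h4
    rw [add_comm]
    exact h4

theorem limsup_mul_le {α : Type} {l : Filter α} {f r : α → ℝ} (hr : Tendsto r l (𝓝 1)) :
    limsup (fun a => ((r a * f a : ℝ) : EReal)) l ≤ limsup (fun a => (f a : EReal)) l := by
  refine EReal.le_of_forall_lt_iff_le.1 ?_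
  intro c hc
  obtain ⟨c', h1, h2⟩ := EReal.lt_iff_exists_real_btwn.1 hc
  have h2' : c' < c := by exact_mod_cast h2
  have h3 : ∀ᶠ a in l, (f a : EReal) < c' := eventually_lt_of_limsup_lt h1 (by isBoundedDefault)
  have h4 : Tendsto (fun a => r a * c') l (𝓝 (1 * c')) := hr.mul_const c'
  rw [one_mul] at h4
  refine limsup_le_of_le (by isBoundedDefault) ?_
  filter_upwards [h3, h4.eventually (gt_mem_nhds h2'), hr.eventually (lt_mem_nhds zero_lt_one)]
    with a ha1 ha2 ha3
  have ha1' : f a < c' := by exact_mod_cast ha1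
  exact_mod_cast ((mul_lt_mul_of_pos_left ha1' ha3).trans ha2).le

theorem limsup_mul {α : Type} {l : Filter α} {f r : α → ℝ} (hr : Tendsto r l (𝓝 1)) :
    limsup (fun a => ((r a * f a : ℝ) : EReal)) l = limsup (fun a => (f a : EReal)) l := by
  refine le_antisymm (limsup_mul_le hr) ?_
  have hr' : Tendsto (fun a => (r a)⁻¹) l (𝓝 1) := by
    have := hr.inv₀ one_ne_zero
    rwa [inv_one] at this
  have h1 := limsup_mul_le (f := fun a => r a * f a) hr'
  refine le_trans (le_of_eq ?_) h1
  refine limsup_congr ?_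
  filter_upwards [hr.eventually (lt_mem_nhds zero_lt_one)] with a ha
  rw [← mul_assoc, inv_mul_cancel₀ ha.ne', one_mul]

theorem tendsto_choose_ratio {j d : ℕ} (hj : j < d) :
    Tendsto (fun k : ℕ => (k.choose j : ℝ) / k.choose d) atTop (𝓝 0) := by
  have h1 := (isEquivalent_choose j).div (isEquivalent_choose d)
  refine (h1.tendsto_nhds_iff).2 ?_
  have h2 : Tendsto (fun k : ℕ => ((d.factorial : ℝ) / j.factorial) * ((k : ℝ) ^ (d - j))⁻¹) atTop
      (𝓝 (((d.factorial : ℝ) / j.factorial) * 0)) := by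
    refine Tendsto.const_mul _ ?_
    refine tendsto_inv_atTop_zero.comp ?_
    exact (tendsto_pow_atTop (by omega)).comp tendsto_natCast_atTop_atTop
  rw [mul_zero] at h2
  refine h2.congr' ?_
  filter_upwards [eventually_gt_atTop 0] with k hk
  have hk' : (k : ℝ) ≠ 0 := by positivity
  have h3 : (k : ℝ) ^ d = k ^ j * k ^ (d - j) := by rw [← pow_add]; congr 1; omega
  simp only [Pi.div_apply]
  rw [h3]
  field_simp

theorem tendsto_bc_ratio (j d : ℕ) (hj : j ≤ d) :
    Tendsto (fun k : ℕ => bc (k : ℤ) j / k.choose d) atTop (𝓝 (if j = d then 1 else 0)) := by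
  simp only [bc_nat]
  split_ifs with h
  · subst h
    refine tendsto_const_nhds.congr' ?_
    filter_upwards [eventually_ge_atTop j] with k hk
    have : (0 : ℝ) < k.choose j := by exact_mod_cast Nat.choose_pos hk
    rw [div_self this.ne']
  · exact tendsto_choose_ratio (lt_of_le_of_ne hj h)

theorem tendsto_choose_succ_ratio (d : ℕ) :
    Tendsto (fun k : ℕ => ((k + 1).choose d : ℝ) / k.choose d) atTop (𝓝 1) := by
  cases d with
  | zero => simp
  | succ d =>
    have h1 := (tendsto_choose_ratio (Nat.lt_succ_self d)).add_const 1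
    rw [zero_add] at h1
    refine h1.congr' ?_
    filter_upwards [eventually_ge_atTop (d + 1)] with k hk
    have : (0 : ℝ) < k.choose (d + 1) := by exact_mod_cast Nat.choose_pos hk
    rw [Nat.succ_eq_add_one, Nat.choose_succ_succ' k d]
    push_cast
    rw [add_div, div_self this.ne']

theorem Psh.congr {n : ℕ} {X : Type} [TopologicalSpace X] [ChartedSpace (Cn n) X] {U : Set X}
    {f f' : X → EReal} (hf : Psh n U f) (h : ∀ x ∈ U, f' x = f x) : Psh n U f' := by
  refine ⟨?_, fun x hx => by rw [h x hx]; exact hf.2.1 x hx, fun k hd b hb hle => ?_⟩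
  · intro x hx c hc
    rw [h x hx] at hc
    filter_upwards [hf.1 x hx c hc, self_mem_nhdsWithin] with y hy hyU
    rwa [h y hyU]
  · rw [h _ (hd.2 0 (by simp))]
    refine hf.2.2 k hd b hb fun z hz => ?_
    rw [← h _ (hd.2 z (by simpa using (le_of_eq (by simpa using hz : ‖z‖ = 1))))]
    exact hle z hz

/-- The limit function. -/
noncomputable def phi {X : Type} [TopologicalSpace X] (g : X ≃ₜ X) (d : ℕ) (a : ℕ → C(X, ℝ)) :
    X → EReal :=
  rlim atTop (fun (k : ℕ) x => ((VF g d a k x / k.choose d : ℝ) : EReal))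

/-- Invariance of the limit function. -/
theorem phi_comp {X : Type} [TopologicalSpace X] (g : X ≃ₜ X) (d : ℕ) (a : ℕ → C(X, ℝ)) (x : X) :
    phi g d a x = (a d x : EReal) + phi g d a (g x) := by
  -- the shifted sequence
  have h1 : rlim atTop (fun (k : ℕ) y => ((VF g d a (k + 1) y / k.choose d : ℝ) : EReal)) x =
      phi g d a x := by
    have h2 : ∀ᶠ q : ℕ × X in atTop ×ˢ 𝓝 x,
        ((VF g d a (q.1 + 1) q.2 / q.1.choose d : ℝ) : EReal) =
        (((((q.1 + 1).choose d : ℝ) / q.1.choose d) *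
          (VF g d a (q.1 + 1) q.2 / (q.1 + 1).choose d) : ℝ) : EReal) := by
      have h3 : ∀ᶠ k : ℕ in atTop, d ≤ k := eventually_ge_atTop d
      filter_upwards [tendsto_fst.eventually h3] with q hq
      have : (0 : ℝ) < (q.1 + 1).choose d := by exact_mod_cast Nat.choose_pos (by omega)
      congr 1
      field_simp
    rw [rlim, limsup_congr h2, limsup_mul (l := atTop ×ˢ 𝓝 x)
      (f := fun q : ℕ × X => VF g d a (q.1 + 1) q.2 / (q.1 + 1).choose d)
      (r := fun q : ℕ × X => ((q.1 + 1).choose d : ℝ) / q.1.choose d)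
      ((tendsto_choose_succ_ratio d).comp tendsto_fst)]
    have h4 : map (fun q : ℕ × X => ((q.1 + 1, q.2) : ℕ × X)) (atTop ×ˢ 𝓝 x) = atTop ×ˢ 𝓝 x := by
      have h5 := Filter.prod_map_map_eq (m₁ := fun k : ℕ => k + 1) (m₂ := (id : X → X))
        (f₁ := atTop) (f₂ := 𝓝 x)
      rw [map_add_atTop_eq_nat, map_id] at h5
      exact h5.symm
    rw [phi, rlim]
    conv_rhs => rw [← h4]
    rw [limsup, limsup, map_map]
    rfl
  have h6 : (fun (k : ℕ) y => ((VF g d a (k + 1) y / k.choose d : ℝ) : EReal)) =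
      fun (k : ℕ) y => (((∑ j ∈ Finset.range (d + 1), bc (k : ℤ) j * a j y) / k.choose d : ℝ) :
        EReal) + ((VF g d a k (g y) / k.choose d : ℝ) : EReal) := by
    ext k y
    rw [VF_succ, ← EReal.coe_add]
    congr 1
    ring
  have h7 : Tendsto (fun q : ℕ × X => (∑ j ∈ Finset.range (d + 1), bc (q.1 : ℤ) j * a j q.2) /
      q.1.choose d) (atTop ×ˢ 𝓝 x) (𝓝 (a d x)) := by
    have h8 : Tendsto (fun q : ℕ × X => ∑ j ∈ Finset.range (d + 1),
        (bc (q.1 : ℤ) j / q.1.choose d) * a j q.2) (atTop ×ˢ 𝓝 x)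
        (𝓝 (∑ j ∈ Finset.range (d + 1), (if j = d then 1 else 0) * a j x)) := by
      refine tendsto_finsetSum _ fun j hj => ?_
      refine Tendsto.mul ?_ ?_
      · exact (tendsto_bc_ratio j d (Nat.lt_succ_iff.1 (Finset.mem_range.1 hj))).comp tendsto_fst
      · exact ((a j).continuous.tendsto x).comp tendsto_snd
    have h9 : ∑ j ∈ Finset.range (d + 1), (if j = d then (1 : ℝ) else 0) * a j x = a d x := by
      rw [Finset.sum_eq_single d]
      · simp
      · intro j _ hj
        simp [hj]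
      · intro h
        exact absurd (Finset.mem_range.2 (Nat.lt_succ_self d)) h
    rw [h9] at h8
    refine h8.congr fun q => ?_
    rw [Finset.sum_div]
    exact Finset.sum_congr rfl fun j _ => by ring
  rw [← h1, h6, rlim_add h7]
  congr 1
  -- the composition
  have h10 : map (fun q : ℕ × X => ((q.1, g q.2) : ℕ × X)) (atTop ×ˢ 𝓝 x) = atTop ×ˢ 𝓝 (g x) := by
    have h5 := Filter.prod_map_map_eq (m₁ := (id : ℕ → ℕ)) (m₂ := (g : X → X))
      (f₁ := atTop) (f₂ := 𝓝 x)
    rw [map_id, Homeomorph.map_nhds_eq] at h5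
    exact h5.symm
  rw [phi, rlim, rlim]
  conv_rhs => rw [← h10]
  rw [limsup, limsup, map_map]
  rfl

end Pool.Agent.H51.LZ
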