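import Pool.Agent.H51.LZ.Rl
import Pool.Agent.H83.HP.Mean

/-!
# The core of the theorem
-/

set_option autoImplicit false

open Set Filter Topology Metric MeasureTheory
open scoped Manifold

namespace Pool.Agent.H51.LZ

variable {n : ℕ} {X : Type} [TopologicalSpace X] [ChartedSpace (Cn n) X]

theorem Is_VF {T : Currents n X} {d : ℕ} {g : X ≃ₜ X}
    (hg : MDifferentiable 𝓘(ℂ, Cn n) 𝓘(ℂ, Cn n) g)
    (hzero : ∀ p x, T.u (d + 1) p x = 0) {a : ℕ → C(X, ℝ)}
    (hrel : ∀ j ≤ d, ∀ p q, Pluriharmonic n (T.V p ∩ g ⁻¹' T.V q)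
      (fun x => T.u j q (g x) - T.u j p x - T.u (j + 1) p x - a j x)) (k : ℕ) :
    T.Is d g (k : ℤ) (VF g d a k) := by
  induction k with
  | zero => exact Currents.Is.zero
  | succ k ih =>
    have h1 := ih.up (a := fun j x => a j x) hg hzero hrel
    have h2 : (VF g d a (k + 1) : X → ℝ) = fun x => VF g d a k (g x) +
        ∑ j ∈ Finset.range (d + 1), bc (k : ℤ) j * a j x := by
      ext x
      exact VF_succ g d a k x
    rw [h2]
    push_cast
    exact h1

theorem Is_VB {T : Currents n X} {d : ℕ} {g : X ≃ₜ X}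
    (hg' : MDifferentiable 𝓘(ℂ, Cn n) 𝓘(ℂ, Cn n) g.symm)
    (hzero : ∀ p x, T.u (d + 1) p x = 0) {a : ℕ → C(X, ℝ)}
    (hrel : ∀ j ≤ d, ∀ p q, Pluriharmonic n (T.V p ∩ g ⁻¹' T.V q)
      (fun x => T.u j q (g x) - T.u j p x - T.u (j + 1) p x - a j x)) (k : ℕ) :
    T.Is d g (-(k : ℤ)) (VB g d a k) := by
  induction k with
  | zero =>
    simp only [Nat.cast_zero, neg_zero]
    exact Currents.Is.zero
  | succ k ih =>
    have h0 : -(k : ℤ) = -((k : ℤ) + 1) + 1 := by ring
    rw [h0] at ih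
    have h1 := ih.down (a := fun j x => a j x) hg' hzero hrel
    have h2 : (VB g d a (k + 1) : X → ℝ) = fun x => VB g d a k (g.symm x) -
        ∑ j ∈ Finset.range (d + 1), bc (-((k : ℤ) + 1)) j * a j (g.symm x) := by
      ext x
      exact VB_succ g d a k x
    rw [h2]
    push_cast
    exact h1

variable [MeasurableSpace X] [BorelSpace X] [CompactSpace X]

/-- integration as a functional -/
noncomputable def Jint (μ : Measure X) [IsFiniteMeasure μ] : C(X, ℝ) →ₗ[ℝ] ℝ where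
  toFun F := ∫ x, F x ∂μ
  map_add' F F' := by
    have h : ∀ F : C(X, ℝ), Integrable (fun x => F x) μ := fun F =>
      F.continuous.integrable_of_hasCompactSupport (HasCompactSupport.of_compactSpace _)
    simp only [ContinuousMap.add_apply]
    exact integral_add (h F) (h F')
  map_smul' c F := by
    simp only [ContinuousMap.smul_apply, smul_eq_mul, RingHom.id_apply]
    exact integral_const_mul c _

theorem Jint_comp {μ : Measure X} [IsFiniteMeasure μ] {g : X ≃ₜ X} (hμ : MeasurePreserving g μ μ)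
    (F : C(X, ℝ)) : Jint μ (F.comp (gc g)) = Jint μ F := by
  change (∫ x, F (g x) ∂μ) = ∫ x, F x ∂μ
  exact hμ.integral_comp g.measurableEmbedding _

theorem Jint_le {μ : Measure X} [IsProbabilityMeasure μ] (F : C(X, ℝ)) (c : ℝ)
    (h : ∀ x, F x ≤ c) : Jint μ F ≤ c := by
  have h1 : Integrable (fun x => F x) μ :=
    F.continuous.integrable_of_hasCompactSupport (HasCompactSupport.of_compactSpace _)
  have h2 := integral_mono h1 (integrable_const c) h
  have h3 : Jint μ F = ∫ x, F x ∂μ := rfl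
  rw [h3]
  simpa using h2

omit [MeasurableSpace X] [BorelSpace X] [ChartedSpace (Cn n) X] in
/-- an invariant mean on an orbit, for continuous functions -/
theorem exists_J (g : X ≃ₜ X) (x : X) : ∃ J : C(X, ℝ) →ₗ[ℝ] ℝ,
    (∀ F : C(X, ℝ), J (F.comp (gc g)) = J F) ∧
      ∀ (F : C(X, ℝ)) (c : ℝ), (∀ j : ℕ, F (g^[j] x) ≤ c) → J F ≤ c := by
  let L : C(X, ℝ) →ₗ[ℝ] (X → ℝ) := ContinuousMap.coeFnLinearMap ℝ
  obtain ⟨I, hI1, hI2⟩ := Pool.Agent.H83.HP.exists_mean (g : X → X) x (LinearMap.range L) (by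
    rintro _ ⟨F, rfl⟩
    refine ⟨‖F‖, fun y => ?_⟩
    have := F.norm_coe_le_norm y
    rwa [Real.norm_eq_abs] at this)
  refine ⟨I.comp L.rangeRestrict, fun F => ?_, fun F c h => ?_⟩
  · exact hI1 _ _ fun y => rfl
  · exact hI2 _ c h

/-- **Core.** -/
theorem core {μ : Measure X} [IsProbabilityMeasure μ] (hμ : SupBound n μ)
    [IsManifold 𝓘(ℂ, Cn n) 1 X]
    {T : Currents n X} {d : ℕ} (hd : Even d) {g : X ≃ₜ X} (hgμ : MeasurePreserving g μ μ)
    (hg : MDifferentiable 𝓘(ℂ, Cn n) 𝓘(ℂ, Cn n) g)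
    (hg' : MDifferentiable 𝓘(ℂ, Cn n) 𝓘(ℂ, Cn n) g.symm)
    (hpos : ∀ p, Psh n (T.V p) (fun x => (T.u 0 p x : EReal)))
    (hzero : ∀ p x, T.u (d + 1) p x = 0) {a : ℕ → C(X, ℝ)}
    (ha : ∀ j ≤ d, ∫ x, a j x ∂μ = 0)
    (hrel : ∀ j ≤ d, ∀ p q, Pluriharmonic n (T.V p ∩ g ⁻¹' T.V q)
      (fun x => T.u j q (g x) - T.u j p x - T.u (j + 1) p x - a j x)) :
    (∀ p, Psh n (T.V p) (fun x => (T.u d p x : EReal) + phi g d a x)) ∧
    ∃ B C : ℝ, (∀ k : ℕ, d ≤ k → ∀ x, VF g d a k x / k.choose d ≤ B) ∧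
      (∀ J : C(X, ℝ) →ₗ[ℝ] ℝ, (∀ F : C(X, ℝ), J (F.comp (gc g)) = J F) →
        (∀ (F : C(X, ℝ)) (c : ℝ), (∀ x, F x ≤ c) → J F ≤ c) →
        ∀ k : ℕ, d ≤ k → -C * k.choose d ≤ J (VF g d a k)) ∧
      ∀ K : Set X, IsClosed K → K.Nonempty → MapsTo g K K → ∃ x ∈ K, ((-C : ℝ) : EReal) ≤ phi g d a x := by
  obtain ⟨C₀, hC₀⟩ := Currents.growth (d := d) hμ hg hg' hpos
  have hzeroF : ∀ k, ∫ x, VF g d a k x ∂μ = 0 := by
    intro k
    have h1 := J_VF g d a (Jint μ) (Jint_comp hgμ) k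
    have h2 : ∑ j ∈ Finset.range (d + 1), bc (k : ℤ) (j + 1) * Jint μ (a j) = 0 := by
      refine Finset.sum_eq_zero fun j hj => ?_
      have : Jint μ (a j) = 0 := ha j (Nat.lt_succ_iff.1 (Finset.mem_range.1 hj))
      rw [this, mul_zero]
    rw [h2] at h1
    exact h1
  have hzeroB : ∀ k, ∫ x, VB g d a k x ∂μ = 0 := by
    intro k
    have h1 := J_VB g d a (Jint μ) (Jint_comp hgμ) k
    have h2 : ∑ j ∈ Finset.range (d + 1), bc (-(k : ℤ)) (j + 1) * Jint μ (a j) = 0 := by
      refine Finset.sum_eq_zero fun j hj => ?_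
      have : Jint μ (a j) = 0 := ha j (Nat.lt_succ_iff.1 (Finset.mem_range.1 hj))
      rw [this, mul_zero]
    rw [h2] at h1
    exact h1
  have hF : ∀ k x, VF g d a k x ≤ C₀ * Mk d (k : ℤ) := fun k =>
    hC₀ k _ (VF g d a k).continuous (Is_VF hg hzero hrel k) (hzeroF k)
  have hB : ∀ k x, VB g d a k x ≤ C₀ * Mk d (-(k : ℤ)) := fun k =>
    hC₀ _ _ (VB g d a k).continuous (Is_VB hg' hzero hrel k) (hzeroB k)
  have hFB : ∀ k : ℕ, d ≤ k → ∀ x, VF g d a k x / k.choose d ≤ |C₀| * 2 ^ d := by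
    intro k hk x
    have h1 : (0 : ℝ) < k.choose d := by exact_mod_cast Nat.choose_pos hk
    rw [div_le_iff₀ h1]
    calc VF g d a k x ≤ C₀ * Mk d (k : ℤ) := hF k x
      _ ≤ |C₀| * Mk d (k : ℤ) :=
        mul_le_mul_of_nonneg_right (le_abs_self _) (zero_le_one.trans (one_le_Mk _ _))
      _ ≤ |C₀| * (2 ^ d * k.choose d) := mul_le_mul_of_nonneg_left (Mk_nat_le d k hk) (abs_nonneg _)
      _ = _ := by ring
  refine ⟨fun p => ?_, |C₀| * 2 ^ d, 2 ^ d * ∑ j ∈ Finset.range (d + 1), ‖a j‖, hFB, ?_, ?_⟩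
  · -- plurisubharmonicity
    have hPc : ∀ k, ContinuousOn (T.P d k p) (T.V p) := by
      intro k
      unfold Currents.P
      exact continuousOn_finsetSum _ fun j _ => continuousOn_const.mul (T.cont j p)
    set w : ℕ → X → EReal := fun k x =>
      ((T.P d k p x / k.choose d : ℝ) : EReal) + ((VF g d a k x / k.choose d : ℝ) : EReal) with hw
    have hwpsh : ∀ k, Psh n (T.V p) (w k) := by
      intro k
      have h1 := (Is_VF hg hzero hrel k).psh hg hg' hpos (VF g d a k).continuous p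
      have h2 := psh_affine h1 ((hPc k).add (VF g d a k).continuous.continuousOn)
        (c := ((k.choose d : ℝ))⁻¹) (by positivity) 0
      refine h2.congr fun x _ => ?_
      simp only [hw]
      rw [← EReal.coe_add]
      congr 1
      ring
    have hlim : ∀ x ∈ T.V p, Tendsto (fun q : ℕ × X => T.P d q.1 p q.2 / q.1.choose d)
        (atTop ×ˢ 𝓝 x) (𝓝 (T.u d p x)) := by
      intro x hx
      have h8 : Tendsto (fun q : ℕ × X => ∑ j ∈ Finset.range (d + 1),
          (bc (q.1 : ℤ) j / q.1.choose d) * T.u j p q.2) (atTop ×ˢ 𝓝 x)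
          (𝓝 (∑ j ∈ Finset.range (d + 1), (if j = d then 1 else 0) * T.u j p x)) := by
        refine tendsto_finsetSum _ fun j hj => ?_
        refine Tendsto.mul ?_ ?_
        · exact (tendsto_bc_ratio j d (Nat.lt_succ_iff.1 (Finset.mem_range.1 hj))).comp tendsto_fst
        · exact ((T.cont j p).continuousAt ((T.isOpen_V p).mem_nhds hx)).tendsto.comp tendsto_snd
      have h9 : ∑ j ∈ Finset.range (d + 1), (if j = d then (1 : ℝ) else 0) * T.u j p x =
          T.u d p x := by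
        rw [Finset.sum_eq_single d]
        · simp
        · intro j _ hj
          simp [hj]
        · intro h
          exact absurd (Finset.mem_range.2 (Nat.lt_succ_self d)) h
      rw [h9] at h8
      refine h8.congr fun q => ?_
      rw [Currents.P, Finset.sum_div]
      exact Finset.sum_congr rfl fun j _ => by ring
    have hbd : ∀ x ∈ T.V p, ∃ C : ℝ, ∀ᶠ q : ℕ × X in atTop ×ˢ 𝓝 x, w q.1 q.2 ≤ (C : EReal) := by
      intro x hx
      refine ⟨(T.u d p x + 1) + |C₀| * 2 ^ d, ?_⟩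
      have h1 := (hlim x hx).eventually (gt_mem_nhds (show T.u d p x < T.u d p x + 1 by linarith))
      have h2 : ∀ᶠ k : ℕ in atTop, d ≤ k := eventually_ge_atTop d
      filter_upwards [h1, tendsto_fst.eventually h2] with q hq1 hq2
      simp only [hw]
      rw [← EReal.coe_add]
      exact_mod_cast add_le_add hq1.le (hFB q.1 hq2 q.2)
    refine (psh_rlim (T.isOpen_V p) (Eventually.of_forall hwpsh) hbd).congr fun x hx => ?_
    rw [hw, rlim_add (hlim x hx)]
    rfl
  · -- means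
    intro J hJ hJle k hk
    have h1 := J_lower g d hd a hB J hJ hJle (S := ∑ j ∈ Finset.range (d + 1), ‖a j‖) ?_ k hk
    · exact h1
    · intro j hj x
      have h2 := (a j).norm_coe_le_norm x
      rw [Real.norm_eq_abs] at h2
      refine h2.trans ?_
      exact Finset.single_le_sum (f := fun j => ‖a j‖) (fun _ _ => norm_nonneg _)
        (Finset.mem_range.2 (Nat.lt_succ_iff.2 hj))
  · -- invariant closed sets
    intro K hK hKne hgK
    obtain ⟨x₀, hx₀⟩ := hKne
    obtain ⟨J, hJ1, hJ2⟩ := exists_J g x₀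
    have horb : ∀ j : ℕ, g^[j] x₀ ∈ K := by
      intro j
      induction j with
      | zero => exact hx₀
      | succ j ih =>
        rw [Function.iterate_succ_apply']
        exact hgK ih
    set S : ℝ := ∑ j ∈ Finset.range (d + 1), ‖a j‖ with hS
    have hlow : ∀ k : ℕ, d ≤ k → -(2 ^ d * S) * k.choose d ≤ J (VF g d a k) := by
      intro k hk
      refine J_lower g d hd a hB J hJ1 (fun F c h => hJ2 F c fun j => h _) ?_ k hk
      intro j hj x
      have h2 := (a j).norm_coe_le_norm x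
      rw [Real.norm_eq_abs] at h2
      refine h2.trans ?_
      exact Finset.single_le_sum (f := fun j => ‖a j‖) (fun _ _ => norm_nonneg _)
        (Finset.mem_range.2 (Nat.lt_succ_iff.2 hj))
    by_contra hcon
    push Not at hcon
    have h1 : {q : ℕ × X | ((VF g d a q.1 q.2 / q.1.choose d : ℝ) : EReal) <
        ((-(2 ^ d * S) : ℝ) : EReal)} ∈ (atTop : Filter ℕ) ×ˢ 𝓝ˢ K :=
      hK.isCompact.mem_prod_nhdsSet_of_forall fun y hy => eventually_of_rlim_lt (hcon y hy)
    obtain ⟨s, hs, t, ht, hst⟩ := Filter.mem_prod_iff.1 h1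
    obtain ⟨k, hks, hkd⟩ := (Filter.Eventually.and (f := atTop) hs (eventually_ge_atTop d)).exists
    have hc : (0 : ℝ) < k.choose d := by exact_mod_cast Nat.choose_pos hkd
    have h2 : ∀ y ∈ K, VF g d a k y < -(2 ^ d * S) * k.choose d := by
      intro y hy
      have h3 : ((VF g d a k y / k.choose d : ℝ) : EReal) < ((-(2 ^ d * S) : ℝ) : EReal) :=
        hst (mk_mem_prod hks (subset_of_mem_nhdsSet ht hy))
      have h4 : VF g d a k y / k.choose d < -(2 ^ d * S) := by exact_mod_cast h3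
      rwa [div_lt_iff₀ hc] at h4
    obtain ⟨y, hy, hmax⟩ := hK.isCompact.exists_isMaxOn ⟨x₀, hx₀⟩
      (VF g d a k).continuous.continuousOn
    have h3 := hJ2 (VF g d a k) (VF g d a k y) (fun j => hmax (horb j))
    have h4 := hlow k hkd
    have h5 := h2 y hy
    linarith

end Pool.Agent.H51.LZ
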