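import Mathlib

/-!
# Unipotent automorphisms of compact complex manifolds with a holomorphic volume form: definitions
-/

set_option autoImplicit false

open Set Filter Topology Metric MeasureTheory
open scoped Manifold ContDiff

namespace Pool.Agent.H51.LZ

/-- The model space `ℂ^n`. -/
abbrev Cn (n : ℕ) : Type := Fin n → ℂ

variable (n : ℕ) {X : Type} [TopologicalSpace X] [ChartedSpace (Cn n) X]

/-- `h` is a holomorphic disc in `U`: a map `h : ℂ → X` which is holomorphic on an open disc of
radius bigger than one and maps the closed unit disc into `U`. -/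
def IsDisc (U : Set X) (h : ℂ → X) : Prop :=
  (∃ R : ℝ, 1 < R ∧ MDifferentiableOn 𝓘(ℂ, ℂ) 𝓘(ℂ, Cn n) h (ball 0 R)) ∧
    ∀ z : ℂ, ‖z‖ ≤ 1 → h z ∈ U

/-- `f : X → [-∞, ∞)` is plurisubharmonic on `U` (the constant `-∞` is allowed): it is upper
semicontinuous, and for every holomorphic disc `h` in `U` the value `f (h 0)` is at most the mean
value of `f ∘ h` on the unit circle, i.e. at most the mean value of every continuous function
`b ≥ f ∘ h` on the circle. -/
def Psh (U : Set X) (f : X → EReal) : Prop :=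
  UpperSemicontinuousOn f U ∧ (∀ x ∈ U, f x ≠ ⊤) ∧
    ∀ h : ℂ → X, IsDisc n U h → ∀ b : ℂ → ℝ, ContinuousOn b (sphere 0 1) →
      (∀ z ∈ sphere (0 : ℂ) 1, f (h z) ≤ (b z : EReal)) →
      f (h 0) ≤ ((Real.circleAverage b 0 1 : ℝ) : EReal)

/-- `f : X → ℝ` is pluriharmonic on `U`: it is continuous, and for every holomorphic disc `h` in
`U` the value `f (h 0)` is the mean value of `f ∘ h` on the unit circle. -/
def Pluriharmonic (U : Set X) (f : X → ℝ) : Prop :=
  ContinuousOn f U ∧
    ∀ h : ℂ → X, IsDisc n U h → f (h 0) = Real.circleAverage (fun z => f (h z)) 0 1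

/-- A sequence `T_0, T_1, ...` of closed real (1,1)-currents with continuous local potentials on
`X`: an open covering `V p ∋ p`, `p ∈ X`, and for each `j` and `p` a continuous function `u j p` on
`V p` (so that `T_j = dd^c (u j p)` on `V p`) such that `u j p - u j q` is pluriharmonic on
`V p ∩ V q`. -/
structure Currents (n : ℕ) (X : Type) [TopologicalSpace X] [ChartedSpace (Cn n) X] where
  V : X → Set X
  u : ℕ → X → X → ℝ
  isOpen_V : ∀ p, IsOpen (V p)
  mem_V : ∀ p, p ∈ V p
  cont : ∀ j p, ContinuousOn (u j p) (V p)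
  pluri : ∀ j p q, Pluriharmonic n (V p ∩ V q) (fun x => u j p x - u j q x)

/-- A nowhere vanishing holomorphic `n`-form on `X`: a nowhere vanishing holomorphic function
`f e` on the image of every chart `e` of the atlas (the form is `f e dz_1 ∧ ... ∧ dz_n` there), with
the transformation rule of `n`-forms. -/
structure VolumeForm (n : ℕ) (X : Type) [TopologicalSpace X] [ChartedSpace (Cn n) X] where
  f : OpenPartialHomeomorph X (Cn n) → Cn n → ℂ
  holo : ∀ e ∈ atlas (Cn n) X, DifferentiableOn ℂ (f e) e.target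
  ne_zero : ∀ e ∈ atlas (Cn n) X, ∀ z ∈ e.target, f e z ≠ 0
  trans : ∀ e ∈ atlas (Cn n) X, ∀ e' ∈ atlas (Cn n) X, ∀ z ∈ (e.symm.trans e').source,
    f e z = f e' (e' (e.symm z)) * (fderiv ℂ (fun y => e' (e.symm y)) z).det

/-- The Lelong number of the (quasi-plurisubharmonic) function `f` at `x` is zero: in every chart
`e` of the atlas at `x` the quotient of `sup {f y : ‖e y - e x‖ ≤ r}` by `log r` tends to zero for
`r → 0`; i.e. for every `ε > 0` and all small `r > 0` this supremum is at least `ε log r`. -/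
def ZeroLelongAt (f : X → EReal) (x : X) : Prop :=
  ∀ e ∈ atlas (Cn n) X, x ∈ e.source → ∀ ε : ℝ, 0 < ε → ∀ᶠ r : ℝ in 𝓝[>] 0,
    ∃ y ∈ e.source, ‖e y - e x‖ ≤ r ∧ ((ε * Real.log r : ℝ) : EReal) ≤ f y

end Pool.Agent.H51.LZ
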