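import Pool.Agent.H51.LZ.MP
import Pool.Agent.H93.PR.Circ

/-!
# Plurisubharmonicity is a local property
-/

set_option autoImplicit false

open Set Filter Topology Metric MeasureTheory
open scoped Manifold

namespace Pool.Agent.H51.LZ

/-- Real parts of entire functions approximate continuous functions on the circle. -/
theorem approx {b : ℂ → ℝ} (hb : ContinuousOn b (sphere 0 1)) {ε : ℝ} (hε : 0 < ε) :
    ∃ P : ℂ → ℂ, Differentiable ℂ P ∧ ∀ z ∈ sphere (0 : ℂ) 1, |(P z).re - b z| ≤ ε := by
  obtain ⟨g, hg⟩ := ContinuousMap.exists_restrict_eq (Metric.isClosed_sphere (x := (0 : ℂ)) (ε := 1))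
    ⟨(sphere (0 : ℂ) 1).domRestrict b, continuousOn_iff_continuous_domRestrict.1 hb⟩
  obtain ⟨P, hP, h⟩ := H93.PR.approx_re g.continuous hε
  refine ⟨P, hP, fun z hz => ?_⟩
  have h1 := h z (by simpa using hz)
  have h2 : g z = b z := by
    exact DFunLike.congr_fun hg ⟨z, hz⟩
  rwa [h2] at h1

theorem average_re {P : ℂ → ℂ} (hP : Differentiable ℂ P) (c : ℂ) (r : ℝ) :
    Real.circleAverage (fun z => (P z).re) c r = (P c).re := by
  have h1 : Real.circleAverage P c r = P c := DiffContOnCl.circleAverage hP.diffContOnCl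
  have h2 := Complex.reCLM.circleAverage_comp_comm (f := P) (c := c) (R := r)
    (hP.continuous.continuousOn.circleIntegrable')
  rw [h1] at h2
  exact h2

variable {n : ℕ} {X : Type} [TopologicalSpace X] [ChartedSpace (Cn n) X]

theorem IsDisc.mono {U U' : Set X} {h : ℂ → X} (hd : IsDisc n U h) (hU : U ⊆ U') :
    IsDisc n U' h := ⟨hd.1, fun z hz => hU (hd.2 z hz)⟩

theorem IsDisc.continuousOn {U : Set X} {h : ℂ → X} (hd : IsDisc n U h) :
    ContinuousOn h (closedBall 0 1) := by
  obtain ⟨⟨R, hR, hm⟩, -⟩ := hd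
  exact hm.continuousOn.mono (closedBall_subset_ball hR)

/-- A small disc inside a disc. -/
theorem IsDisc.small {U O : Set X} {h : ℂ → X} (hd : IsDisc n U h) {z : ℂ} {r : ℝ} (hr : 0 < r)
    (hzr : ‖z‖ + r ≤ 1) (hO : ∀ w ∈ closedBall z r, h w ∈ O) :
    IsDisc n O (fun w => h (z + r * w)) := by
  obtain ⟨⟨R, hR, hm⟩, -⟩ := hd
  refine ⟨⟨1 + (R - 1) / r, ?_, ?_⟩, ?_⟩
  · have : 0 < (R - 1) / r := div_pos (by linarith) hr
    linarith
  · have hmap : MapsTo (fun w : ℂ => z + r * w) (ball 0 (1 + (R - 1) / r)) (ball 0 R) := by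
      intro w hw
      rw [mem_ball_zero_iff] at hw ⊢
      calc ‖z + r * w‖ ≤ ‖z‖ + r * ‖w‖ := by
            refine (norm_add_le _ _).trans ?_
            rw [norm_mul, Complex.norm_real, Real.norm_eq_abs, abs_of_pos hr]
        _ < ‖z‖ + r * (1 + (R - 1) / r) := by
            have := mul_lt_mul_of_pos_left hw hr
            linarith
        _ = ‖z‖ + r + (R - 1) := by field_simp; ring
        _ ≤ R := by linarith
    have hd : MDifferentiableOn 𝓘(ℂ, ℂ) 𝓘(ℂ, ℂ) (fun w : ℂ => z + r * w)
        (ball 0 (1 + (R - 1) / r)) := by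
      rw [mdifferentiableOn_iff_differentiableOn]
      fun_prop
    exact hm.comp hd hmap
  · intro w hw
    refine hO _ ?_
    rw [mem_closedBall, dist_eq_norm, add_sub_cancel_left, norm_mul, Complex.norm_real,
      Real.norm_eq_abs, abs_of_pos hr]
    exact mul_le_of_le_one_right hr.le hw

theorem Psh.mono {U U' : Set X} {f : X → EReal} (hf : Psh n U f) (hU : U' ⊆ U) : Psh n U' f :=
  ⟨hf.1.mono hU, fun x hx => hf.2.1 x (hU hx), fun h hd => hf.2.2 h (hd.mono hU)⟩

/-- Plurisubharmonicity is a local property. -/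
theorem psh_of_local {U : Set X} {f : X → EReal}
    (hloc : ∀ x ∈ U, ∃ O, IsOpen O ∧ x ∈ O ∧ Psh n O f) : Psh n U f := by
  have husc : UpperSemicontinuousOn f U := by
    intro x hx
    obtain ⟨O, hO, hxO, hf⟩ := hloc x hx
    have h1 := hf.1 x hxO
    intro y hy
    have h2 := h1 y hy
    rw [hO.nhdsWithin_eq hxO] at h2
    exact h2.filter_mono nhdsWithin_le_nhds
  refine ⟨husc, fun x hx => ?_, ?_⟩
  · obtain ⟨O, -, hxO, hf⟩ := hloc x hx
    exact hf.2.1 x hxO
  intro h hd b hb hle
  -- enough with an error
  refine EReal.le_of_forall_lt_iff_le.1 ?_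
  intro t ht
  obtain ⟨t', ht'⟩ : ∃ t' : ℝ, Real.circleAverage b 0 1 < t' ∧ (t' : EReal) ≤ t := by
    obtain ⟨t', h1, h2⟩ := EReal.lt_iff_exists_real_btwn.1 (show ((Real.circleAverage b 0 1 : ℝ) : EReal) < (t : EReal) by exact_mod_cast ht)
    exact ⟨t', by exact_mod_cast h1, h2.le⟩
  obtain ⟨ht1, ht2⟩ := ht'
  refine le_trans ?_ ht2
  set ε : ℝ := (t' - Real.circleAverage b 0 1) / 2 with hε
  have hε0 : 0 < ε := by rw [hε]; linarith
  obtain ⟨P, hP, hPb⟩ := approx hb hε0
  have hb' : ContinuousOn b (sphere 0 |1|) := by simpa using hb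
  have hPre : Continuous fun z => (P z).re := Complex.continuous_re.comp hP.continuous
  set D : ℂ → EReal := fun z => f (h z) + ((-(P z).re : ℝ) : EReal) with hD
  have hKU : MapsTo h (closedBall 0 1) U := fun z hz => hd.2 z (by simpa using hz)
  have huscS : UpperSemicontinuousOn (fun z => f (h z)) (closedBall 0 1) :=
    husc.comp hd.continuousOn hKU
  have huscD : UpperSemicontinuousOn D (closedBall 0 1) := by
    refine UpperSemicontinuousOn.add' huscS ?_ ?_
    · exact ContinuousOn.upperSemicontinuousOn
        (continuous_coe_real_ereal.comp hPre.neg).continuousOn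
    · intro z _
      exact EReal.continuousAt_add (Or.inr (EReal.coe_ne_bot _)) (Or.inr (EReal.coe_ne_top _))
  have hStop : ∀ z ∈ closedBall (0 : ℂ) 1, f (h z) ≠ ⊤ := by
    intro z hz
    obtain ⟨O, -, hxO, hf⟩ := hloc (h z) (hKU hz)
    exact hf.2.1 _ hxO
  have key := max_principle (W := ball 0 1) (isCompact_closedBall (0 : ℂ) 1) huscD
    (c := ε) (fun z hz => ?_) (fun z hz hzW => ?_) (fun z hzW hz => ?_) 0 (by simp)
  · -- conclusion
    have h1 : f (h 0) ≤ ((ε + (P 0).re : ℝ) : EReal) := by
      have h2 : f (h 0) + ((-(P 0).re : ℝ) : EReal) + (((P 0).re : ℝ) : EReal) ≤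
          (ε : EReal) + (((P 0).re : ℝ) : EReal) := add_le_add_left key _
      rw [add_assoc, ← EReal.coe_add, neg_add_cancel, EReal.coe_zero, add_zero,
        ← EReal.coe_add] at h2
      exact h2
    refine h1.trans ?_
    have h3 : (P 0).re ≤ Real.circleAverage b 0 1 + ε := by
      rw [← average_re hP 0 1]
      have h4 : Real.circleAverage (fun z => (P z).re) 0 1 ≤
          Real.circleAverage (fun z => b z + ε) 0 1 := by
        refine Real.circleAverage_mono hPre.continuousOn.circleIntegrable' ?_ ?_
        · exact ContinuousOn.circleIntegrable' (hb'.add continuousOn_const)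
        · intro z hz
          have h5 := hPb z (by simpa using hz)
          have := (abs_le.1 h5).2
          linarith
      refine h4.trans ?_
      rw [Real.circleAverage_fun_add (ContinuousOn.circleIntegrable' hb')
        (continuousOn_const.circleIntegrable'), Real.circleAverage_const]
    have h6 : ε + (P 0).re ≤ t' := by
      rw [hε] at h3 ⊢
      linarith
    exact_mod_cast h6
  · -- not top
    simp only [hD]
    exact EReal.add_ne_top (hStop z hz) (EReal.coe_ne_top _)
  · -- boundary
    have hz1 : z ∈ sphere (0 : ℂ) 1 := by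
      rw [mem_sphere]
      rw [mem_closedBall] at hz
      rw [mem_ball, not_lt] at hzW
      exact le_antisymm hz hzW
    have h1 := hle z hz1
    have h2 := hPb z hz1
    calc D z ≤ (b z : EReal) + ((-(P z).re : ℝ) : EReal) := add_le_add_left h1 _
      _ = ((b z - (P z).re : ℝ) : EReal) := by rw [← EReal.coe_add]; rfl
      _ ≤ (ε : EReal) := by
        have := (abs_le.1 h2).1
        exact_mod_cast (by linarith : b z - (P z).re ≤ ε)
  · -- interior
    obtain ⟨O, hO, hxO, hf⟩ := hloc (h z) (hKU hz)
    have hcz : ContinuousAt h z := by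
      refine (hd.continuousOn).continuousAt ?_
      exact mem_of_superset (isOpen_ball.mem_nhds hzW) ball_subset_closedBall
    have h1 : ∀ᶠ w in 𝓝 z, h w ∈ O ∧ w ∈ ball (0 : ℂ) 1 :=
      (hcz.eventually (hO.mem_nhds hxO)).and (isOpen_ball.mem_nhds hzW)
    obtain ⟨ρ, hρ, h2⟩ := Metric.eventually_nhds_iff_ball.1 h1
    set r : ℝ := min (ρ / 2) ((1 - ‖z‖) / 2) with hr
    have hz1 : ‖z‖ < 1 := by simpa using hzW
    have hr0 : 0 < r := lt_min (by linarith) (by linarith)
    have hrρ : r < ρ := lt_of_le_of_lt (min_le_left _ _) (by linarith)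
    have hzr : ‖z‖ + r ≤ 1 := by
      have := min_le_right (ρ / 2) ((1 - ‖z‖) / 2)
      rw [← hr] at this
      linarith
    refine ⟨r, hr0, ?_, ?_⟩
    · intro w hw
      have : w ∈ ball z ρ := by
        rw [mem_ball, mem_sphere.1 hw]
        exact hrρ
      exact ball_subset_closedBall (h2 w this).2
    · intro c hc hDc
      have hdisc : IsDisc n O (fun w => h (z + r * w)) := by
        refine hd.small hr0 hzr ?_
        intro w hw
        refine (h2 w ?_).1
        rw [mem_ball]
        exact lt_of_le_of_lt (mem_closedBall.1 hw) hrρ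
      have hsph : ∀ w ∈ sphere (0 : ℂ) 1, z + r * w ∈ sphere z r := by
        intro w hw
        have : ‖w‖ = 1 := by simpa using hw
        simp [dist_eq_norm, this, abs_of_pos hr0]
      have hmap : ContinuousOn (fun w : ℂ => c (z + r * w)) (sphere 0 1) :=
        hc.comp (by fun_prop) hsph
      have h3 := hf.2.2 _ hdisc (fun w => c (z + r * w) + (P (z + r * w)).re)
        (hmap.add (hPre.comp (by fun_prop)).continuousOn) ?_
      · have e1 : Real.circleAverage (fun w => c (z + r * w) + (P (z + r * w)).re) 0 1 =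
            Real.circleAverage c z r + (P z).re := by
          have e2 : Real.circleAverage (fun w => c w + (P w).re) z r =
              Real.circleAverage (fun w => c (z + r * w) + (P (z + r * w)).re) 0 1 := by
            rw [Real.circleAverage_eq_circleAverage_zero_one]
            refine Real.circleAverage_congr_sphere fun w _ => ?_
            simp only [add_comm]
          rw [← e2, Real.circleAverage_fun_add, average_re hP]
          · exact ContinuousOn.circleIntegrable' (by rwa [abs_of_pos hr0])
          · exact hPre.continuousOn.circleIntegrable'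
        rw [e1] at h3
        simp only [mul_zero, add_zero] at h3
        calc D z = f (h z) + ((-(P z).re : ℝ) : EReal) := rfl
          _ ≤ ((Real.circleAverage c z r + (P z).re : ℝ) : EReal) + ((-(P z).re : ℝ) : EReal) :=
            add_le_add_left h3 _
          _ = ((Real.circleAverage c z r : ℝ) : EReal) := by
            rw [← EReal.coe_add]
            congr 1
            ring
      · intro w hw
        have h4 := hDc _ (hsph w hw)
        have h5 : f (h (z + r * w)) + ((-(P (z + r * w)).re : ℝ) : EReal) +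
            (((P (z + r * w)).re : ℝ) : EReal) ≤
            (c (z + r * w) : EReal) + (((P (z + r * w)).re : ℝ) : EReal) := add_le_add_left h4 _
        rw [add_assoc, ← EReal.coe_add, neg_add_cancel, EReal.coe_zero, add_zero,
          ← EReal.coe_add] at h5
        exact h5

end Pool.Agent.H51.LZ
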