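import Pool.Agent.H51.LZ.Ch

/-!
# The relaxed upper limit of plurisubharmonic functions
-/

set_option autoImplicit false

open Set Filter Topology Metric MeasureTheory
open scoped Manifold

namespace Pool.Agent.H51.LZ

/-- The relaxed upper limit. -/
noncomputable def rlim {ι X : Type} [TopologicalSpace X] (l : Filter ι) (w : ι → X → EReal)
    (x : X) : EReal :=
  limsup (fun q : ι × X => w q.1 q.2) (l ×ˢ 𝓝 x)

theorem rlim_le {ι X : Type} [TopologicalSpace X] {l : Filter ι} {w : ι → X → EReal} {x : X}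
    {c : EReal} (h : ∀ᶠ q : ι × X in l ×ˢ 𝓝 x, w q.1 q.2 ≤ c) : rlim l w x ≤ c :=
  limsup_le_of_le (by isBoundedDefault) h

theorem eventually_of_rlim_lt {ι X : Type} [TopologicalSpace X] {l : Filter ι} {w : ι → X → EReal}
    {x : X} {c : EReal} (h : rlim l w x < c) : ∀ᶠ q : ι × X in l ×ˢ 𝓝 x, w q.1 q.2 < c :=
  eventually_lt_of_limsup_lt h (by isBoundedDefault)

theorem rlim_usc {ι X : Type} [TopologicalSpace X] (l : Filter ι) (w : ι → X → EReal) :
    UpperSemicontinuous (rlim l w) := by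
  intro x c hc
  obtain ⟨c', h1, h2⟩ := exists_between hc
  have h3 := eventually_of_rlim_lt h1
  have h4 : ∀ᶠ x' in 𝓝 x, ∀ᶠ q : ι × X in l ×ˢ 𝓝 x', w q.1 q.2 < c' := by
    obtain ⟨s, hs, t, ht, hst⟩ := Filter.mem_prod_iff.1 h3
    filter_upwards [eventually_mem_nhds_iff.2 ht] with x' hx'
    exact mem_of_superset (prod_mem_prod hs hx') hst
  filter_upwards [h4] with x' hx'
  exact lt_of_le_of_lt (rlim_le (hx'.mono fun q hq => hq.le)) h2

variable {n : ℕ} {X : Type} [TopologicalSpace X] [ChartedSpace (Cn n) X]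

theorem psh_rlim [IsManifold 𝓘(ℂ, Cn n) 1 X] {ι : Type} {l : Filter ι} {w : ι → X → EReal}
    {V : Set X} (hV : IsOpen V) (hw : ∀ᶠ i in l, Psh n V (w i))
    (hb : ∀ x ∈ V, ∃ C : ℝ, ∀ᶠ q : ι × X in l ×ˢ 𝓝 x, w q.1 q.2 ≤ (C : EReal)) :
    Psh n V (rlim l w) := by
  refine psh_of_local fun x hx => ?_
  set e := chartAt (Cn n) x with he
  have hea : e ∈ atlas (Cn n) X := chart_mem_atlas _ _
  refine ⟨V ∩ e.source, hV.inter e.open_source, ⟨hx, mem_chart_source _ _⟩,
    (rlim_usc l w).upperSemicontinuousOn _, fun y hy => ?_, ?_⟩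
  · obtain ⟨C, hC⟩ := hb y hy.1
    exact ne_top_of_le_ne_top (EReal.coe_ne_top C) (rlim_le hC)
  intro h hd b hbc hle
  obtain ⟨R, hR, hm, hmem⟩ := hd.exists_larger (hV.inter e.open_source)
  obtain ⟨g, hg⟩ := ContinuousMap.exists_restrict_eq (Metric.isClosed_sphere (x := (0 : ℂ)) (ε := 1))
    ⟨(sphere (0 : ℂ) 1).domRestrict b, continuousOn_iff_continuous_domRestrict.1 hbc⟩
  have hgb : ∀ z ∈ sphere (0 : ℂ) 1, g z = b z := fun z hz => DFunLike.congr_fun hg ⟨z, hz⟩
  have hav : Real.circleAverage b 0 1 = Real.circleAverage (fun z => g z) 0 1 :=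
    Real.circleAverage_congr_sphere fun z hz => (hgb z (by simpa using hz)).symm
  rw [hav]
  refine EReal.le_of_forall_lt_iff_le.1 ?_
  intro t ht
  have ht' : Real.circleAverage (fun z => g z) 0 1 < t := by exact_mod_cast ht
  set ε : ℝ := t - Real.circleAverage (fun z => g z) 0 1 with hε
  have hε0 : 0 < ε := by rw [hε]; linarith
  -- continuity
  have hc1 : ∀ z : ℂ, ‖z‖ ≤ R → ContinuousAt (fun q : Cn n × ℂ => e (h q.2) + q.1) (0, z) := by
    intro z hz
    have h1 : ContinuousAt (fun q : Cn n × ℂ => h q.2) (0, z) :=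
      ContinuousAt.comp (f := fun q : Cn n × ℂ => q.2) (x := (0, z)) (hmem z hz).2
        continuousAt_snd
    have h2 : ContinuousAt (fun q : Cn n × ℂ => e (h q.2)) (0, z) :=
      ContinuousAt.comp (f := fun q : Cn n × ℂ => h q.2) (x := (0, z))
        (e.continuousAt (hmem z hz).1.2) h1
    exact h2.add continuousAt_fst
  have hc2 : ∀ z : ℂ, ‖z‖ ≤ R →
      ContinuousAt (fun q : Cn n × ℂ => e.symm (e (h q.2) + q.1)) (0, z) := by
    intro z hz
    have h1 : ContinuousAt e.symm ((fun q : Cn n × ℂ => e (h q.2) + q.1) (0, z)) := by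
      simp only [add_zero]
      exact e.continuousAt_symm (e.map_source (hmem z hz).1.2)
    exact ContinuousAt.comp (f := fun q : Cn n × ℂ => e (h q.2) + q.1) (x := (0, z)) h1 (hc1 z hz)
  -- translated discs
  have hT : ∀ᶠ s in 𝓝 (0 : Cn n), ∀ z ∈ closedBall (0 : ℂ) R,
      e (h z) + s ∈ e.target ∧ e.symm (e (h z) + s) ∈ V := by
    refine IsCompact.eventually_forall_of_forall_eventually (isCompact_closedBall _ _)
      (P := fun s z => e (h z) + s ∈ e.target ∧ e.symm (e (h z) + s) ∈ V) fun z hz => ?_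
    have hz' : ‖z‖ ≤ R := by simpa using hz
    have h1 := (hc1 z hz').eventually (e.open_target.mem_nhds (by
      simp only [add_zero]
      exact e.map_source (hmem z hz').1.2))
    have h2 := (hc2 z hz').eventually (hV.mem_nhds (by
      simp only [add_zero, e.left_inv (hmem z hz').1.2]
      exact (hmem z hz').1.1))
    exact h1.and h2
  have hS : ∀ᶠ q : ι × Cn n in l ×ˢ 𝓝 0, ∀ z ∈ sphere (0 : ℂ) 1,
      w q.1 (e.symm (e (h z) + q.2)) ≤ ((g z + ε : ℝ) : EReal) := by
    have h1 : {p : (ι × Cn n) × ℂ | w p.1.1 (e.symm (e (h p.2) + p.1.2)) ≤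
        ((g p.2 + ε : ℝ) : EReal)} ∈ (l ×ˢ 𝓝 (0 : Cn n)) ×ˢ 𝓝ˢ (sphere (0 : ℂ) 1) := by
      refine (isCompact_sphere (0 : ℂ) 1).mem_prod_nhdsSet_of_forall fun z hz => ?_
      have hz1 : ‖z‖ = 1 := by simpa using hz
      have hzR : ‖z‖ ≤ R := by rw [hz1]; exact hR.le
      have h2 : rlim l w (h z) < ((g z + ε / 2 : ℝ) : EReal) := by
        refine lt_of_le_of_lt (hle z hz) ?_
        rw [hgb z hz]
        exact_mod_cast (by linarith : b z < b z + ε / 2)
      have h3 := eventually_of_rlim_lt h2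
      have h4 : Tendsto (fun p : (ι × Cn n) × ℂ => ((p.1.1, e.symm (e (h p.2) + p.1.2)) : ι × X))
          ((l ×ˢ 𝓝 (0 : Cn n)) ×ˢ 𝓝 z) (l ×ˢ 𝓝 (h z)) := by
        refine Tendsto.prodMk (tendsto_fst.comp tendsto_fst) ?_
        have h5 : Tendsto (fun p : (ι × Cn n) × ℂ => ((p.1.2, p.2) : Cn n × ℂ))
            ((l ×ˢ 𝓝 (0 : Cn n)) ×ˢ 𝓝 z) (𝓝 ((0 : Cn n), z)) := by
          rw [nhds_prod_eq]
          exact Tendsto.prodMk (tendsto_snd.comp tendsto_fst) tendsto_snd
        have h6 := (hc2 z hzR).tendsto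
        simp only [add_zero, e.left_inv (hmem z hzR).1.2] at h6
        exact h6.comp h5
      have h7 : ∀ᶠ p : (ι × Cn n) × ℂ in (l ×ˢ 𝓝 (0 : Cn n)) ×ˢ 𝓝 z, g z - ε / 2 < g p.2 := by
        have h8 : ∀ᶠ y in 𝓝 z, g z - ε / 2 < g y :=
          g.continuous.continuousAt.eventually (lt_mem_nhds (by linarith))
        exact tendsto_snd.eventually h8
      filter_upwards [h4.eventually h3, h7] with p hp1 hp2
      refine hp1.le.trans ?_
      exact_mod_cast (by linarith : g z + ε / 2 ≤ g p.2 + ε)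
    obtain ⟨s, hs, t', ht', hst⟩ := Filter.mem_prod_iff.1 h1
    filter_upwards [hs] with q hq z hz
    exact hst (mk_mem_prod hq (subset_of_mem_nhdsSet ht' hz))
  have h0R : ‖(0 : ℂ)‖ ≤ R := by simp; linarith
  have hlim : Tendsto (fun q : ι × X => ((q.1, e q.2 - e (h 0)) : ι × Cn n)) (l ×ˢ 𝓝 (h 0))
      (l ×ˢ 𝓝 0) := by
    refine Tendsto.prodMk tendsto_fst ?_
    have h1 : ContinuousAt (fun y => e y - e (h 0)) (h 0) :=
      (e.continuousAt (hmem 0 h0R).1.2).sub continuousAt_const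
    have h2 := h1.tendsto
    rw [sub_self] at h2
    exact h2.comp tendsto_snd
  refine rlim_le ?_
  have hsrc : ∀ᶠ q : ι × X in l ×ˢ 𝓝 (h 0), q.2 ∈ e.source :=
    tendsto_snd.eventually (e.open_source.mem_nhds (hmem 0 h0R).1.2)
  have hTT : ∀ᶠ q : ι × Cn n in l ×ˢ 𝓝 0, ∀ z ∈ closedBall (0 : ℂ) R,
      e (h z) + q.2 ∈ e.target ∧ e.symm (e (h z) + q.2) ∈ V := tendsto_snd.eventually hT
  filter_upwards [hlim.eventually hS, hlim.eventually hTT, hsrc, tendsto_fst.eventually hw]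
    with q hq1 hq2 hq3 hq4
  have hdisc : IsDisc n V (fun z => e.symm (e (h z) + (e q.2 - e (h 0)))) := by
    refine isDisc_of_chart hea (f := fun z => e (h z) + (e q.2 - e (h 0))) hR ?_ ?_
    · have h1 : MDifferentiableOn 𝓘(ℂ, Cn n) 𝓘(ℂ, Cn n) e e.source := mdifferentiableOn_atlas hea
      have h2 : MDifferentiableOn 𝓘(ℂ, ℂ) 𝓘(ℂ, Cn n) (fun z => e (h z)) (ball 0 R) :=
        h1.comp hm fun z hz => (hmem z (mem_ball_zero_iff.1 hz).le).1.2
      rw [mdifferentiableOn_iff_differentiableOn] at h2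
      exact h2.add_const _
    · intro z hz
      exact hq2 z (by simpa using hz.trans hR.le)
  have h1 := hq4.2.2 _ hdisc (fun z => g z + ε) (by fun_prop) (fun z hz => hq1 z hz)
  have h2 : Real.circleAverage (fun z => g z + ε) 0 1 =
      Real.circleAverage (fun z => g z) 0 1 + ε := by
    rw [Real.circleAverage_fun_add (g.continuous.continuousOn.circleIntegrable')
      (continuousOn_const.circleIntegrable'), Real.circleAverage_const]
  have h3 : e (h 0) + (e q.2 - e (h 0)) = e q.2 := by abel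
  simp only [h3, e.left_inv hq3, h2] at h1
  refine h1.trans ?_
  exact_mod_cast (by rw [hε]; linarith :
    Real.circleAverage (fun z => g z) 0 1 + ε ≤ t)

end Pool.Agent.H51.LZ
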