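import Pool.Agent.H51.LZ.Orb
import Pool.Agent.H51.LZ.Any

/-!
# Birkhoff sums grow at most logarithmically
-/

set_option autoImplicit false

open Set Filter Topology Metric MeasureTheory
open scoped Manifold

namespace Pool.Agent.H51.LZ

/-- The combinatorial statement (`Pool.Agent.H36.LZ.log_bound`). -/
def LogBound : Prop :=
  ∀ (S : Set (ℤ → ℝ)), (∀ s ∈ S, s 0 = 0) → (∀ s ∈ S, ∀ j : ℤ, (fun i => s (i + j) - s j) ∈ S) →
    ∀ B : ℝ, (∀ s ∈ S, ∀ i, |s (i + 1) - s i| ≤ B) → ∀ d : ℕ, 1 ≤ d → ∀ A : ℝ,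
    (∀ s ∈ S, ∀ k : ℕ, ∑ l ∈ Finset.range k, ((k - 1 - l).choose (d - 1) : ℝ) * s l ≤
      A * ((k : ℝ) + d) ^ d) →
    (∀ s ∈ S, ∀ k : ℕ, ∑ l ∈ Finset.range (k + 1), ((k - l + (d - 1)).choose (d - 1) : ℝ) *
      s (-(l : ℤ)) ≤ A * ((k : ℝ) + d) ^ d) →
    ∃ C : ℝ, 0 ≤ C ∧ ∀ s ∈ S, ∀ i : ℤ, s i ≤ C * (1 + Real.log (1 + |(i : ℝ)|))

theorem choose_le_pow' (k j d m : ℕ) (hj : j ≤ d) (hm : m ≤ d) (hd : 1 ≤ d) :
    ((k + m).choose j : ℝ) ≤ ((k : ℝ) + d) ^ d := by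
  have h1 : (k + m).choose j ≤ (k + m) ^ j := Nat.choose_le_pow _ _
  have h2 : (k + m) ^ j ≤ (k + d) ^ j := Nat.pow_le_pow_left (by omega) j
  have h3 : (k + d) ^ j ≤ (k + d) ^ d := Nat.pow_le_pow_right (by omega) hj
  exact_mod_cast (h1.trans h2).trans h3

theorem Mk_le_pow (d k : ℕ) (hd : 1 ≤ d) : Mk d (k : ℤ) ≤ (d + 1) * ((k : ℝ) + d) ^ d := by
  rw [Mk]
  calc ∑ j ∈ Finset.range (d + 1), |bc (k : ℤ) j|
      ≤ ∑ _j ∈ Finset.range (d + 1), ((k : ℝ) + d) ^ d := by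
        refine Finset.sum_le_sum fun j hj => ?_
        rw [bc_nat, abs_of_nonneg (by positivity : (0 : ℝ) ≤ (k.choose j : ℝ))]
        exact choose_le_pow' k j d 0 (Nat.lt_succ_iff.1 (Finset.mem_range.1 hj)) (Nat.zero_le _) hd
    _ = _ := by
        rw [Finset.sum_const, Finset.card_range, nsmul_eq_mul]
        push_cast
        ring

theorem Mk_neg_le_pow (d k : ℕ) (hd : 1 ≤ d) :
    Mk d (-(k : ℤ)) ≤ (d + 1) * ((k : ℝ) + d) ^ d := by
  rcases Nat.eq_zero_or_pos k with rfl | hk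
  · have := Mk_le_pow d 0 hd
    simpa using this
  obtain ⟨m, rfl⟩ : ∃ m, k = m + 1 := ⟨k - 1, by omega⟩
  rw [Mk]
  calc ∑ j ∈ Finset.range (d + 1), |bc (-((m + 1 : ℕ) : ℤ)) j|
      ≤ ∑ _j ∈ Finset.range (d + 1), (((m + 1 : ℕ) : ℝ) + d) ^ d := by
        refine Finset.sum_le_sum fun j hj => ?_
        have hj' := Nat.lt_succ_iff.1 (Finset.mem_range.1 hj)
        push_cast
        rw [abs_bc_neg]
        refine (choose_le_pow' m j d j hj' hj' hd).trans ?_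
        gcongr
        linarith
    _ = _ := by
        rw [Finset.sum_const, Finset.card_range, nsmul_eq_mul]
        push_cast
        ring

variable {n : ℕ} {X : Type} [TopologicalSpace X] [ChartedSpace (Cn n) X]
  [MeasurableSpace X] [BorelSpace X] [CompactSpace X]

/-- the bounds for `V_k` for both signs of `k` -/
theorem VF_VB_le {μ : Measure X} [IsProbabilityMeasure μ] (hμ : SupBound n μ)
    {T : Currents n X} {d : ℕ} {g : X ≃ₜ X} (hgμ : MeasurePreserving g μ μ)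
    (hg : MDifferentiable 𝓘(ℂ, Cn n) 𝓘(ℂ, Cn n) g)
    (hg' : MDifferentiable 𝓘(ℂ, Cn n) 𝓘(ℂ, Cn n) g.symm)
    (hpos : ∀ p, Psh n (T.V p) (fun x => (T.u 0 p x : EReal)))
    (hzero : ∀ p x, T.u (d + 1) p x = 0) {a : ℕ → C(X, ℝ)}
    (ha : ∀ j ≤ d, ∫ x, a j x ∂μ = 0)
    (hrel : ∀ j ≤ d, ∀ p q, Pluriharmonic n (T.V p ∩ g ⁻¹' T.V q)
      (fun x => T.u j q (g x) - T.u j p x - T.u (j + 1) p x - a j x)) :
    ∃ C₀ : ℝ, (∀ k x, VF g d a k x ≤ C₀ * Mk d (k : ℤ)) ∧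
      ∀ k x, VB g d a k x ≤ C₀ * Mk d (-(k : ℤ)) := by
  obtain ⟨C₀, hC₀⟩ := Currents.growth (d := d) hμ hg hg' hpos
  have hzeroF : ∀ k, ∫ x, VF g d a k x ∂μ = 0 := by
    intro k
    have h1 := J_VF g d a (Jint μ) (Jint_comp hgμ) k
    have h2 : ∑ j ∈ Finset.range (d + 1), bc (k : ℤ) (j + 1) * Jint μ (a j) = 0 := by
      refine Finset.sum_eq_zero fun j hj => ?_
      have : Jint μ (a j) = 0 := ha j (Nat.lt_succ_iff.1 (Finset.mem_range.1 hj))
      rw [this, mul_zero]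
    rw [h2] at h1
    exact h1
  have hzeroB : ∀ k, ∫ x, VB g d a k x ∂μ = 0 := by
    intro k
    have h1 := J_VB g d a (Jint μ) (Jint_comp hgμ) k
    have h2 : ∑ j ∈ Finset.range (d + 1), bc (-(k : ℤ)) (j + 1) * Jint μ (a j) = 0 := by
      refine Finset.sum_eq_zero fun j hj => ?_
      have : Jint μ (a j) = 0 := ha j (Nat.lt_succ_iff.1 (Finset.mem_range.1 hj))
      rw [this, mul_zero]
    rw [h2] at h1
    exact h1
  exact ⟨C₀, fun k => hC₀ k _ (VF g d a k).continuous (Is_VF hg hzero hrel k) (hzeroF k),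
    fun k => hC₀ _ _ (VB g d a k).continuous (Is_VB hg' hzero hrel k) (hzeroB k)⟩

omit [MeasurableSpace X] [BorelSpace X] [ChartedSpace (Cn n) X] in
/-- the two sided statement, `d > 0` even -/
theorem birkhoff_pos (hlog : LogBound) {d : ℕ} (hd : Even d) (hd0 : 1 ≤ d) {g : X ≃ₜ X}
    {a : ℕ → C(X, ℝ)} {C₀ : ℝ} (hF : ∀ k x, VF g d a k x ≤ C₀ * Mk d (k : ℤ))
    (hB : ∀ k x, VB g d a k x ≤ C₀ * Mk d (-(k : ℤ))) :
    ∃ C : ℝ, 0 ≤ C ∧ ∀ (k : ℕ) (x : X),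
      |∑ i ∈ Finset.range k, a d (g^[i] x)| ≤ C * (1 + Real.log (k + 1)) := by
  obtain ⟨e, rfl⟩ : ∃ e, d = e + 1 := ⟨d - 1, by omega⟩
  set N : ℝ := ∑ j ∈ Finset.range (e + 1), ‖a j‖ with hN
  have hN0 : 0 ≤ N := Finset.sum_nonneg fun _ _ => norm_nonneg _
  obtain ⟨C, hC0, hC⟩ := hlog {s | ∃ o, Along g (a (e + 1)) o s} (fun s hs => by
      obtain ⟨o, ho⟩ := hs
      exact ho.2.1) (fun s hs j => by
      obtain ⟨o, ho⟩ := hs
      exact ⟨_, ho.shift j⟩) ‖a (e + 1)‖ (fun s hs i => by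
      obtain ⟨o, ho⟩ := hs
      rw [ho.2.2 i, add_sub_cancel_left, ← Real.norm_eq_abs]
      exact (a (e + 1)).norm_coe_le_norm _) (e + 1) (by omega)
      (|C₀| * ((e + 1 : ℕ) + 1) + N) (fun s hs k => by
      obtain ⟨o, ho⟩ := hs
      have h1 := Qf_le g e a k o s ho
      have h2 := hF k (o 0)
      have h3 : C₀ * Mk (e + 1) (k : ℤ) ≤
          |C₀| * (((e + 1 : ℕ) + 1) * ((k : ℝ) + (e + 1 : ℕ)) ^ (e + 1)) :=
        (mul_le_mul_of_nonneg_right (le_abs_self _) (zero_le_one.trans (one_le_Mk _ _))).trans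
          (mul_le_mul_of_nonneg_left (Mk_le_pow (e + 1) k (by omega)) (abs_nonneg _))
      have h4 : ∑ j ∈ Finset.range (e + 1), ‖a j‖ * (k.choose (j + 1) : ℝ) ≤
          N * ((k : ℝ) + (e + 1 : ℕ)) ^ (e + 1) := by
        rw [hN, Finset.sum_mul]
        refine Finset.sum_le_sum fun j hj => mul_le_mul_of_nonneg_left ?_ (norm_nonneg _)
        exact choose_le_pow' k (j + 1) (e + 1) 0 (Finset.mem_range.1 hj) (Nat.zero_le _) (by omega)
      change Qf e s k ≤ _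
      calc Qf e s k ≤ _ := h1
        _ ≤ |C₀| * (((e + 1 : ℕ) + 1) * ((k : ℝ) + (e + 1 : ℕ)) ^ (e + 1)) +
            N * ((k : ℝ) + (e + 1 : ℕ)) ^ (e + 1) := add_le_add (h2.trans h3) h4
        _ = _ := by ring) (fun s hs k => by
      obtain ⟨o, ho⟩ := hs
      have h1 := Qb_le g e hd a k o s ho
      have h2 := hB k (o 0)
      have h3 : C₀ * Mk (e + 1) (-(k : ℤ)) ≤
          |C₀| * (((e + 1 : ℕ) + 1) * ((k : ℝ) + (e + 1 : ℕ)) ^ (e + 1)) :=
        (mul_le_mul_of_nonneg_right (le_abs_self _) (zero_le_one.trans (one_le_Mk _ _))).trans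
          (mul_le_mul_of_nonneg_left (Mk_neg_le_pow (e + 1) k (by omega)) (abs_nonneg _))
      have h4 : ∑ j ∈ Finset.range (e + 1), ‖a j‖ * ((k + j).choose (j + 1) : ℝ) ≤
          N * ((k : ℝ) + (e + 1 : ℕ)) ^ (e + 1) := by
        rw [hN, Finset.sum_mul]
        refine Finset.sum_le_sum fun j hj => mul_le_mul_of_nonneg_left ?_ (norm_nonneg _)
        have hj' := Finset.mem_range.1 hj
        exact choose_le_pow' k (j + 1) (e + 1) j (by omega) (by omega) (by omega)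
      change Qb e s k ≤ _
      calc Qb e s k ≤ _ := h1
        _ ≤ |C₀| * (((e + 1 : ℕ) + 1) * ((k : ℝ) + (e + 1 : ℕ)) ^ (e + 1)) +
            N * ((k : ℝ) + (e + 1 : ℕ)) ^ (e + 1) := add_le_add (h2.trans h3) h4
        _ = _ := by ring)
  refine ⟨C, hC0, fun k x => ?_⟩
  obtain ⟨o, s, hos, -, -, hsum⟩ := exists_along g (a (e + 1)) x
  rw [← hsum k, abs_le]
  constructor
  · have h1 := hC _ ⟨_, hos.shift k⟩ (-(k : ℤ))
    simp only [neg_add_cancel, hos.2.1, zero_sub] at h1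
    have h2 : |((-(k : ℤ) : ℤ) : ℝ)| = (k : ℝ) := by
      push_cast
      rw [abs_neg, abs_of_nonneg (by positivity)]
    rw [h2, add_comm (1 : ℝ) (k : ℝ)] at h1
    linarith
  · have h1 := hC _ ⟨_, hos⟩ (k : ℤ)
    have h2 : |(((k : ℤ)) : ℝ)| = (k : ℝ) := by
      push_cast
      rw [abs_of_nonneg (by positivity)]
    rw [h2, add_comm (1 : ℝ) (k : ℝ)] at h1
    exact h1

omit [MeasurableSpace X] [BorelSpace X] [ChartedSpace (Cn n) X] [CompactSpace X] in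
theorem VF_zero_eq (g : X ≃ₜ X) (a : ℕ → C(X, ℝ)) (k : ℕ) : ∀ x,
    VF g 0 a k x = ∑ i ∈ Finset.range k, a 0 (g^[i] x) := by
  induction k with
  | zero => intro x; simp [VF]
  | succ k ih =>
    intro x
    rw [VF_succ, ih, Finset.sum_range_succ' _ k]
    simp [bc_zero]

omit [MeasurableSpace X] [BorelSpace X] [ChartedSpace (Cn n) X] [CompactSpace X] in
theorem VB_zero_eq (g : X ≃ₜ X) (a : ℕ → C(X, ℝ)) (k : ℕ) : ∀ x,
    VB g 0 a k (g^[k] x) = -∑ i ∈ Finset.range k, a 0 (g^[i] x) := by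
  induction k with
  | zero => intro x; simp [VB]
  | succ k ih =>
    intro x
    rw [VB_succ, Function.iterate_succ_apply', Homeomorph.symm_apply_apply, ih]
    simp only [zero_add, Finset.range_one, Finset.sum_singleton, bc_zero, one_mul]
    rw [Finset.sum_range_succ (fun i => a 0 (g^[i] x)) k]
    ring

omit [MeasurableSpace X] [BorelSpace X] [ChartedSpace (Cn n) X] in
theorem birkhoff_even (hlog : LogBound) {d : ℕ} (hd : Even d) {g : X ≃ₜ X}
    {a : ℕ → C(X, ℝ)} {C₀ : ℝ} (hF : ∀ k x, VF g d a k x ≤ C₀ * Mk d (k : ℤ))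
    (hB : ∀ k x, VB g d a k x ≤ C₀ * Mk d (-(k : ℤ))) :
    ∃ C : ℝ, 0 ≤ C ∧ ∀ (k : ℕ) (x : X),
      |∑ i ∈ Finset.range k, a d (g^[i] x)| ≤ C * (1 + Real.log (k + 1)) := by
  rcases Nat.eq_zero_or_pos d with rfl | hd0
  · have hM : ∀ k : ℤ, Mk 0 k = 1 := by
      intro k
      simp [Mk, bc_zero]
    refine ⟨|C₀|, abs_nonneg _, fun k x => ?_⟩
    have h1 := hF k x
    have h2 := hB k (g^[k] x)
    rw [VF_zero_eq, hM, mul_one] at h1
    rw [VB_zero_eq, hM, mul_one] at h2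
    have h3 : 0 ≤ Real.log ((k : ℝ) + 1) := Real.log_nonneg (by
      have : (0 : ℝ) ≤ k := by positivity
      linarith)
    have h4 : |C₀| ≤ |C₀| * (1 + Real.log (k + 1)) := by
      have := mul_nonneg (abs_nonneg C₀) h3
      linarith
    refine le_trans ?_ h4
    rw [abs_le]
    have h5 := le_abs_self C₀
    constructor <;> linarith
  · exact birkhoff_pos hlog hd hd0 hF hB

/-- **The Birkhoff sums of `a_d - c` grow at most logarithmically.** -/
theorem birkhoff_log [ConnectedSpace X] [IsManifold 𝓘(ℂ, Cn n) 1 X] (hlog : LogBound)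
    (hodd : OddCase n X) {μ : Measure X} [IsProbabilityMeasure μ] (hsup : SupBound n μ) (d : ℕ)
    (g : X ≃ₜ X) (hgμ : MeasurePreserving g μ μ)
    (hg : MDifferentiable 𝓘(ℂ, Cn n) 𝓘(ℂ, Cn n) g)
    (hg' : MDifferentiable 𝓘(ℂ, Cn n) 𝓘(ℂ, Cn n) g.symm) (T : Currents n X)
    (hpos : ∀ p, Psh n (T.V p) (fun x => (T.u 0 p x : EReal)))
    (a : ℕ → X → ℝ) (ha : ∀ j, Continuous (a j))
    (hrel : ∀ j < d, ∀ p q, Pluriharmonic n (T.V p ∩ g ⁻¹' T.V q)
      (fun x => T.u j q (g x) - T.u j p x - T.u (j + 1) p x - a j x))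
    (hrel_top : ∀ p q, Pluriharmonic n (T.V p ∩ g ⁻¹' T.V q)
      (fun x => T.u d q (g x) - T.u d p x - a d x)) :
    ∃ C : ℝ, 0 ≤ C ∧ ∀ (k : ℕ) (x : X),
      |∑ i ∈ Finset.range k, (a d (g^[i] x) - ∫ y, a d y ∂μ)| ≤ C * (1 + Real.log (k + 1)) := by
  let b : ℕ → C(X, ℝ) := fun j => ⟨fun x => a j x - ∫ y, a j y ∂μ, (ha j).sub continuous_const⟩
  have hb : ∀ j ≤ d, ∫ x, b j x ∂μ = 0 := by
    intro j _
    change ∫ x, (a j x - ∫ y, a j y ∂μ) ∂μ = 0
    rw [integral_sub]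
    · simp
    · exact (ha j).integrable_of_hasCompactSupport (HasCompactSupport.of_compactSpace _)
    · exact integrable_const _
  have hconst : ∀ (U : Set X) (c : ℝ), Pluriharmonic n U (fun _ => c) := fun U c =>
    ⟨continuousOn_const, fun h _ => by rw [Real.circleAverage_const]⟩
  have hzero : ∀ p x, (T.cut d).u (d + 1) p x = 0 := by
    intro p x
    simp [Currents.cut]
  have hrel' : ∀ j ≤ d, ∀ p q, Pluriharmonic n ((T.cut d).V p ∩ g ⁻¹' (T.cut d).V q)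
      (fun x => (T.cut d).u j q (g x) - (T.cut d).u j p x - (T.cut d).u (j + 1) p x - b j x) := by
    intro j hj p q
    rcases lt_or_eq_of_le hj with hlt | rfl
    · refine ((hrel j hlt p q).add (hconst _ (∫ y, a j y ∂μ))).congr fun x _ => ?_
      rw [Currents.cut_u hj, Currents.cut_u hlt]
      change _ - (a j x - ∫ y, a j y ∂μ) = _
      ring
    · refine ((hrel_top p q).add (hconst _ (∫ y, a j y ∂μ))).congr fun x _ => ?_
      rw [Currents.cut_u le_rfl, hzero]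
      change _ - (a j x - ∫ y, a j y ∂μ) = _
      ring
  have hpos' : ∀ p, Psh n ((T.cut d).V p) (fun x => ((T.cut d).u 0 p x : EReal)) := by
    intro p
    rw [Currents.cut_u (Nat.zero_le d)]
    exact hpos p
  rcases Nat.even_or_odd d with hd | hd
  · obtain ⟨C₀, hF, hB⟩ := VF_VB_le hsup hgμ hg hg' hpos' hzero hb hrel'
    exact birkhoff_even hlog hd hF hB
  · obtain ⟨φ, hφ, hinv⟩ := hodd μ inferInstance hsup (T.cut d) d hd g hgμ hg hg' hpos' hzero b hb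
      hrel'
    have hsum : ∀ (k : ℕ) (x : X),
        ∑ i ∈ Finset.range k, (a d (g^[i] x) - ∫ y, a d y ∂μ) = φ x - φ (g^[k] x) := by
      intro k
      induction k with
      | zero => intro x; simp
      | succ k ih =>
        intro x
        rw [Finset.sum_range_succ, ih x, Function.iterate_succ_apply']
        have h1 : φ (g^[k] x) = (a d (g^[k] x) - ∫ y, a d y ∂μ) + φ (g (g^[k] x)) := hinv _
        linarith
    refine ⟨2 * ‖φ‖, by positivity, fun k x => ?_⟩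
    rw [hsum]
    have h3 : 0 ≤ Real.log ((k : ℝ) + 1) := Real.log_nonneg (by
      have : (0 : ℝ) ≤ k := by positivity
      linarith)
    have h4 : |φ x| ≤ ‖φ‖ := by
      rw [← Real.norm_eq_abs]
      exact φ.norm_coe_le_norm x
    have h5 : |φ (g^[k] x)| ≤ ‖φ‖ := by
      rw [← Real.norm_eq_abs]
      exact φ.norm_coe_le_norm _
    have h6 : 0 ≤ ‖φ‖ := norm_nonneg _
    calc |φ x - φ (g^[k] x)| ≤ |φ x| + |φ (g^[k] x)| := abs_sub _ _
      _ ≤ 2 * ‖φ‖ := by linarith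
      _ ≤ 2 * ‖φ‖ * (1 + Real.log (k + 1)) := by nlinarith

end Pool.Agent.H51.LZ
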