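import Pool.Agent.H51.LZ.Defs

/-!
# The maximum principle for upper semicontinuous functions on a compact set of the plane
-/

set_option autoImplicit false

open Set Filter Topology Metric MeasureTheory

namespace Pool.Agent.H51.LZ

/-- A continuous function on a circle, at most `m` and somewhere smaller, has average less than
`m`. -/
theorem average_lt {b : ℂ → ℝ} {c : ℂ} {r m : ℝ} (hr : 0 < r) (hb : ContinuousOn b (sphere c r))
    (hle : ∀ z ∈ sphere c r, b z ≤ m) {z₀ : ℂ} (hz₀ : z₀ ∈ sphere c r) (hlt : b z₀ < m) :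
    Real.circleAverage b c r < m := by
  have hcont : Continuous fun θ : ℝ => b (circleMap c r θ) := by
    refine hb.comp_continuous (continuous_circleMap c r) fun θ => ?_
    exact circleMap_mem_sphere c hr.le θ
  obtain ⟨θ₀, hθ₀, hθ⟩ : ∃ θ ∈ Ioc (-Real.pi) Real.pi, circleMap c r θ = z₀ := by
    refine ⟨Complex.arg (z₀ - c), ⟨Complex.neg_pi_lt_arg _, Complex.arg_le_pi _⟩, ?_⟩
    have h1 : ‖z₀ - c‖ = r := by simpa [dist_eq_norm] using hz₀
    have h2 := Complex.norm_mul_exp_arg_mul_I (z₀ - c)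
    rw [h1] at h2
    rw [circleMap, h2]
    ring
  have h3 : Real.circleAverage b c r =
      (2 * Real.pi)⁻¹ * ∫ θ in (0 : ℝ)..2 * Real.pi, b (circleMap c r θ) := by
    rw [Real.circleAverage]
    rfl
  have h4 : (∫ θ in (0 : ℝ)..2 * Real.pi, b (circleMap c r θ)) =
      ∫ θ in (-Real.pi)..Real.pi, b (circleMap c r θ) := by
    have hp : Function.Periodic (fun θ : ℝ => b (circleMap c r θ)) (2 * Real.pi) := by
      intro θ
      simp only [periodic_circleMap c r θ]
    have h5 := hp.intervalIntegral_add_eq 0 (-Real.pi)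
    have e1 : (0 : ℝ) + 2 * Real.pi = 2 * Real.pi := by ring
    have e2 : -Real.pi + 2 * Real.pi = Real.pi := by ring
    rw [e1, e2] at h5
    exact h5
  have h6 : (∫ θ in (-Real.pi)..Real.pi, b (circleMap c r θ)) <
      ∫ _θ in (-Real.pi)..Real.pi, m := by
    refine intervalIntegral.integral_lt_integral_of_continuousOn_of_le_of_exists_lt
      (by linarith [Real.pi_pos]) hcont.continuousOn continuousOn_const
      (fun θ _ => hle _ (circleMap_mem_sphere c hr.le θ)) ?_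
    exact ⟨θ₀, Ioc_subset_Icc_self hθ₀, by rw [hθ]; exact hlt⟩
  rw [h3, h4]
  rw [intervalIntegral.integral_const, smul_eq_mul] at h6
  have h7 : 0 < 2 * Real.pi := by positivity
  rw [inv_mul_lt_iff₀ h7]
  calc (∫ θ in (-Real.pi)..Real.pi, b (circleMap c r θ)) < (Real.pi - -Real.pi) * m := h6
    _ = 2 * Real.pi * m := by ring

/-- Maximum principle. -/
theorem max_principle {K W : Set ℂ} (hK : IsCompact K) {D : ℂ → EReal}
    (husc : UpperSemicontinuousOn D K) (htop : ∀ z ∈ K, D z ≠ ⊤) {c : ℝ}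
    (hbd : ∀ z ∈ K, z ∉ W → D z ≤ c)
    (hW : ∀ z ∈ W, z ∈ K → ∃ r : ℝ, 0 < r ∧ sphere z r ⊆ K ∧
      ∀ b : ℂ → ℝ, ContinuousOn b (sphere z r) → (∀ w ∈ sphere z r, D w ≤ (b w : EReal)) →
        D z ≤ ((Real.circleAverage b z r : ℝ) : EReal)) :
    ∀ z ∈ K, D z ≤ c := by
  by_contra hcon
  push Not at hcon
  obtain ⟨z₀, hz₀, hgt⟩ := hcon
  obtain ⟨z₁, hz₁, hmax⟩ := husc.exists_isMaxOn ⟨z₀, hz₀⟩ hK
  have hm1 : (c : EReal) < D z₁ := lt_of_lt_of_le hgt (hmax hz₀)
  have hm2 : D z₁ ≠ ⊤ := htop z₁ hz₁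
  have hm3 : D z₁ ≠ ⊥ := fun h => by rw [h] at hm1; exact not_lt_bot hm1
  obtain ⟨m, hm⟩ : ∃ m : ℝ, D z₁ = m := ⟨(D z₁).toReal, (EReal.coe_toReal hm2 hm3).symm⟩
  have hle : ∀ z ∈ K, D z ≤ m := fun z hz => by rw [← hm]; exact hmax hz
  -- the compact set of maximum points
  have hSc : IsCompact (K ∩ D ⁻¹' Ici (m : EReal)) := husc.isCompact_inter_preimage_Ici hK _
  have hSne : (K ∩ D ⁻¹' Ici (m : EReal)).Nonempty := ⟨z₁, hz₁, by simp [hm]⟩
  obtain ⟨z₂, hz₂, hre⟩ := hSc.exists_isMaxOn hSne (f := Complex.re) Complex.continuous_re.continuousOn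
  have hz₂K : z₂ ∈ K := hz₂.1
  have hz₂m : D z₂ = m := le_antisymm (hle _ hz₂K) hz₂.2
  have hz₂W : z₂ ∈ W := by
    by_contra hn
    have h1 := hbd z₂ hz₂K hn
    rw [hz₂m, ← hm] at h1
    exact absurd hm1 (not_lt.2 h1)
  obtain ⟨r, hr, hsub, hsm⟩ := hW z₂ hz₂W hz₂K
  set z₃ : ℂ := z₂ + r with hz₃
  have hz₃s : z₃ ∈ sphere z₂ r := by
    simp [hz₃, dist_eq_norm, abs_of_pos hr]
  have hz₃K : z₃ ∈ K := hsub hz₃s
  have hz₃lt : D z₃ < m := by
    by_contra hn
    have h1 : z₃ ∈ K ∩ D ⁻¹' Ici (m : EReal) := ⟨hz₃K, not_lt.1 hn⟩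
    have h2 := hre h1
    simp only [mem_ofPred_eq, hz₃, Complex.add_re, Complex.ofReal_re] at h2
    linarith
  obtain ⟨m', hm'1, hm'2⟩ := EReal.lt_iff_exists_real_btwn.1 hz₃lt
  have hm'2' : m' < m := by exact_mod_cast hm'2
  -- a neighbourhood
  have hnb := husc z₃ hz₃K m' hm'1
  rw [eventually_nhdsWithin_iff, Metric.eventually_nhds_iff] at hnb
  obtain ⟨δ, hδ, hnb⟩ := hnb
  set b : ℂ → ℝ := fun w => m - (m - m') * max 0 (1 - dist w z₃ / δ) with hb
  have hbc : Continuous b := by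
    simp only [hb]
    fun_prop
  have hk0 : ∀ w, 0 ≤ max 0 (1 - dist w z₃ / δ) := fun w => le_max_left _ _
  have hk1 : ∀ w, max 0 (1 - dist w z₃ / δ) ≤ 1 := fun w => by
    refine max_le zero_le_one ?_
    have : 0 ≤ dist w z₃ / δ := by positivity
    linarith
  have hbm : ∀ w, b w ≤ m := fun w => by
    have := mul_nonneg (sub_nonneg.2 hm'2'.le) (hk0 w)
    simp only [hb]
    linarith
  have hbm' : ∀ w, m' ≤ b w := fun w => by
    have := mul_le_mul_of_nonneg_left (hk1 w) (sub_nonneg.2 hm'2'.le)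
    simp only [hb]
    linarith
  have hDb : ∀ w ∈ sphere z₂ r, D w ≤ (b w : EReal) := by
    intro w hw
    by_cases hd : dist w z₃ < δ
    · exact (hnb hd (hsub hw)).le.trans (by exact_mod_cast hbm' w)
    · have h1 : max 0 (1 - dist w z₃ / δ) = 0 := by
        refine max_eq_left ?_
        rw [not_lt] at hd
        have : 1 ≤ dist w z₃ / δ := by rwa [le_div_iff₀ hδ, one_mul]
        linarith
      have h2 : b w = m := by simp only [hb, h1, mul_zero, sub_zero]
      rw [h2]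
      exact hle w (hsub hw)
  have h1 := hsm b hbc.continuousOn hDb
  have h2 : Real.circleAverage b z₂ r < m := by
    refine average_lt hr hbc.continuousOn (fun w _ => hbm w) hz₃s ?_
    have : b z₃ = m' := by simp [hb]
    rw [this]
    exact hm'2'
  rw [hz₂m] at h1
  have h3 : m ≤ Real.circleAverage b z₂ r := by exact_mod_cast h1
  linarith

end Pool.Agent.H51.LZ
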