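import Pool.Agent.H51.LZ.Core
import Pool.Agent.H36.LZ.Ball
import Pool.Agent.H78.LZ.Vol
import Pool.Agent.H89.LZ.Fatou

/-!
# The theorem, given the statement on orbit closures of points of positive Lelong number
-/

set_option autoImplicit false

open Set Filter Topology Metric MeasureTheory
open scoped Manifold ENNReal

namespace Pool.Agent.H51.LZ

variable {n : ℕ} {X : Type} [TopologicalSpace X] [ChartedSpace (Cn n) X]

/-- the currents `T_0, .., T_d, 0, 0, ..` -/
def Currents.cut (T : Currents n X) (d : ℕ) : Currents n X where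
  V := T.V
  u j := if j ≤ d then T.u j else fun _ _ => 0
  isOpen_V := T.isOpen_V
  mem_V := T.mem_V
  cont j p := by
    split_ifs
    · exact T.cont j p
    · exact continuousOn_const
  pluri j p q := by
    split_ifs
    · exact T.pluri j p q
    · simpa using Pluriharmonic.zero (n := n) (T.V p ∩ T.V q)

theorem Currents.cut_u {T : Currents n X} {d j : ℕ} (hj : j ≤ d) : (T.cut d).u j = T.u j :=
  if_pos hj

/-- The statement on orbit closures. -/
def OrbitClosure (n : ℕ) (X : Type) [TopologicalSpace X] [ChartedSpace (Cn n) X] : Prop :=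
  ∀ (φ : X → EReal) (V : X → Set X) (u : X → X → ℝ), (∀ p, IsOpen (V p)) → (∀ p, p ∈ V p) →
    (∀ p, ContinuousOn (u p) (V p)) → (∀ p, Psh n (V p) (fun x => (u p x : EReal) + φ x)) →
    ∀ g : X ≃ₜ X, MDifferentiable 𝓘(ℂ, Cn n) 𝓘(ℂ, Cn n) g →
      MDifferentiable 𝓘(ℂ, Cn n) 𝓘(ℂ, Cn n) g.symm → ∀ A : ℝ, (∀ y, φ (g y) ≤ φ y + (A : EReal)) →
      ∀ x, ¬ ZeroLelongAt n φ x → ∀ y ∈ closure (range fun k : ℕ => g^[k] x), φ y = ⊥

theorem main_of [T2Space X] [CompactSpace X] [ConnectedSpace X] [IsManifold 𝓘(ℂ, Cn n) 1 X]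
    [MeasurableSpace X] [BorelSpace X] (hLEL : OrbitClosure n X)
    (Ω : VolumeForm n X) (d : ℕ) (hd : Even d) (g : X ≃ₜ X)
    (hg : MDifferentiable 𝓘(ℂ, Cn n) 𝓘(ℂ, Cn n) g)
    (hg' : MDifferentiable 𝓘(ℂ, Cn n) 𝓘(ℂ, Cn n) g.symm) (T : Currents n X)
    (hpos : ∀ p, Psh n (T.V p) (fun x => (T.u 0 p x : EReal)))
    (a : ℕ → X → ℝ) (ha : ∀ j, Continuous (a j))
    (hrel : ∀ j < d, ∀ p q, Pluriharmonic n (T.V p ∩ g ⁻¹' T.V q)
      (fun x => T.u j q (g x) - T.u j p x - T.u (j + 1) p x - a j x))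
    (hrel_top : ∀ p q, Pluriharmonic n (T.V p ∩ g ⁻¹' T.V q)
      (fun x => T.u d q (g x) - T.u d p x - a d x)) :
    ∃ (φ : X → EReal) (c C : ℝ),
      (∀ p, Psh n (T.V p) (fun x => (T.u d p x : EReal) + φ x)) ∧
      (∀ x, φ x = ((a d x - c : ℝ) : EReal) + φ (g x)) ∧
      (∀ x, ZeroLelongAt n φ x) ∧
      (∀ K : Set X, IsClosed K → K.Nonempty → MapsTo g K K → ∃ x ∈ K, ((-C : ℝ) : EReal) ≤ φ x) ∧
      ∀ ν : Measure X, IsProbabilityMeasure ν → MeasurePreserving g ν ν →
        ∫⁻ x, (-(φ x)).toENNReal ∂ν ≤ ENNReal.ofReal C := by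
  obtain ⟨μ, hμ, hgμ⟩ := Pool.Agent.H78.LZ.exists_invariant_measure Ω g hg
  haveI : IsProbabilityMeasure μ := hμ.1
  have hsup : SupBound n μ := fun V hV hp => Pool.Agent.H36.LZ.sup_le_mean hμ hV hp
  -- normalised functions
  let b : ℕ → C(X, ℝ) := fun j => ⟨fun x => a j x - ∫ y, a j y ∂μ, (ha j).sub continuous_const⟩
  have hb : ∀ j ≤ d, ∫ x, b j x ∂μ = 0 := by
    intro j _
    change ∫ x, (a j x - ∫ y, a j y ∂μ) ∂μ = 0
    rw [integral_sub]
    · simp
    · exact (ha j).integrable_of_hasCompactSupport (HasCompactSupport.of_compactSpace _)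
    · exact integrable_const _
  have hconst : ∀ (U : Set X) (c : ℝ), Pluriharmonic n U (fun _ => c) := fun U c =>
    ⟨continuousOn_const, fun h _ => by rw [Real.circleAverage_const]⟩
  have hzero : ∀ p x, (T.cut d).u (d + 1) p x = 0 := by
    intro p x
    simp [Currents.cut]
  have hrel' : ∀ j ≤ d, ∀ p q, Pluriharmonic n ((T.cut d).V p ∩ g ⁻¹' (T.cut d).V q)
      (fun x => (T.cut d).u j q (g x) - (T.cut d).u j p x - (T.cut d).u (j + 1) p x - b j x) := by
    intro j hj p q
    rcases lt_or_eq_of_le hj with hlt | rfl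
    · refine ((hrel j hlt p q).add (hconst _ (∫ y, a j y ∂μ))).congr fun x _ => ?_
      rw [Currents.cut_u hj, Currents.cut_u hlt]
      change _ - (a j x - ∫ y, a j y ∂μ) = _
      ring
    · refine ((hrel_top p q).add (hconst _ (∫ y, a j y ∂μ))).congr fun x _ => ?_
      rw [Currents.cut_u le_rfl, hzero]
      change _ - (a j x - ∫ y, a j y ∂μ) = _
      ring
  have hpos' : ∀ p, Psh n ((T.cut d).V p) (fun x => ((T.cut d).u 0 p x : EReal)) := by
    intro p
    rw [Currents.cut_u (Nat.zero_le d)]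
    exact hpos p
  obtain ⟨hpsh, B, C, hB, hJ, hK⟩ := core hsup hd hgμ hg hg' hpos' hzero hb hrel'
  have hpsh' : ∀ p, Psh n (T.V p) (fun x => (T.u d p x : EReal) + phi g d b x) := by
    intro p
    have := hpsh p
    rwa [Currents.cut_u le_rfl] at this
  have hinv : ∀ x, phi g d b x = ((a d x - ∫ y, a d y ∂μ : ℝ) : EReal) + phi g d b (g x) :=
    fun x => phi_comp g d b x
  -- the measures
  set ψ : ℕ → X → ℝ := fun k x => VF g d b k x / k.choose d with hψ
  have hψc : ∀ k, Continuous (ψ k) := fun k => (VF g d b k).continuous.div_const _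
  have hψB : ∀ k x, ψ k x ≤ max B 0 := by
    intro k x
    rcases le_or_gt d k with hk | hk
    · exact (hB k hk x).trans (le_max_left _ _)
    · have : (k.choose d : ℝ) = 0 := by rw [Nat.choose_eq_zero_of_lt hk]; simp
      simp only [hψ, this, div_zero]
      exact le_max_right _ _
  have hψφ : ∀ x, limsup (fun k => (ψ k x : EReal)) atTop ≤ phi g d b x := by
    intro x
    have h1 : Tendsto (fun k : ℕ => ((k, x) : ℕ × X)) atTop (atTop ×ˢ 𝓝 x) :=
      tendsto_id.prodMk tendsto_const_nhds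
    have h2 := limsup_le_limsup_of_le h1
      (u := fun q : ℕ × X => ((VF g d b q.1 q.2 / q.1.choose d : ℝ) : EReal))
    refine le_trans (le_of_eq ?_) h2
    rw [limsup, limsup, map_map]
    rfl
  refine ⟨phi g d b, ∫ y, a d y ∂μ, max (max B 0) 0 + max C 0, hpsh', hinv, ?_, ?_, ?_⟩
  · intro x
    by_contra hx
    -- the orbit closure
    have hA : ∃ A : ℝ, ∀ y, phi g d b (g y) ≤ phi g d b y + (A : EReal) := by
      refine ⟨‖b d‖, fun y => ?_⟩
      have h1 : phi g d b y = (b d y : EReal) + phi g d b (g y) := phi_comp g d b y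
      have h2 : -‖b d‖ ≤ b d y := by
        have := (b d).norm_coe_le_norm y
        rw [Real.norm_eq_abs] at this
        exact (abs_le.1 this).1
      rw [h1]
      have h3 : (0 : EReal) ≤ (b d y : EReal) + (‖b d‖ : EReal) := by
        rw [← EReal.coe_add]
        exact_mod_cast (by linarith : (0 : ℝ) ≤ b d y + ‖b d‖)
      calc phi g d b (g y) = 0 + phi g d b (g y) := (zero_add _).symm
        _ ≤ ((b d y : EReal) + (‖b d‖ : EReal)) + phi g d b (g y) := add_le_add_left h3 _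
        _ = _ := by rw [add_assoc, add_assoc, add_comm (‖b d‖ : EReal)]
    obtain ⟨A, hA⟩ := hA
    have hbot := hLEL (phi g d b) T.V (T.u d) T.isOpen_V T.mem_V (T.cont d) hpsh' g hg hg' A hA x hx
    set K : Set X := closure (range fun k : ℕ => g^[k] x) with hKdef
    have hKg : MapsTo g K K := by
      refine MapsTo.closure ?_ g.continuous
      rintro _ ⟨k, rfl⟩
      exact ⟨k + 1, Function.iterate_succ_apply' _ _ _⟩
    obtain ⟨y, hy, hle⟩ := hK K isClosed_closure ⟨x, subset_closure ⟨0, rfl⟩⟩ hKg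
    rw [hbot y hy] at hle
    exact absurd hle (not_le.2 (EReal.bot_lt_coe _))
  · intro K hKc hKne hKg
    obtain ⟨x, hx, hle⟩ := hK K hKc hKne hKg
    refine ⟨x, hx, le_trans ?_ hle⟩
    have h1 := le_max_right (max B 0) 0
    have h2 := le_max_left C 0
    exact_mod_cast (by linarith : -(max (max B 0) 0 + max C 0) ≤ -C)
  · intro ν hν hgν
    have h1 : ∀ᶠ k in atTop, -(max C 0) ≤ ∫ x, ψ k x ∂ν := by
      filter_upwards [eventually_ge_atTop d] with k hk
      have h2 := hJ (Jint ν) (Jint_comp hgν) Jint_le k hk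
      have h3 : Jint ν (VF g d b k) = ∫ x, VF g d b k x ∂ν := rfl
      have hc : (0 : ℝ) < k.choose d := by exact_mod_cast Nat.choose_pos hk
      have h4 : ∫ x, ψ k x ∂ν = (∫ x, VF g d b k x ∂ν) / k.choose d := integral_div _ _
      rw [h4, le_div_iff₀ hc, ← h3]
      refine le_trans ?_ h2
      have := le_max_left C 0
      nlinarith
    exact Pool.Agent.H89.LZ.lintegral_neg_le ν hψc hψB h1 hψφ

end Pool.Agent.H51.LZ
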