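import Pool.Agent.H51.LZ.Core

/-!
# Weighted means of Birkhoff sums along orbits
-/

set_option autoImplicit false

open Set Filter Topology Metric MeasureTheory
open scoped Manifold

namespace Pool.Agent.H51.LZ

variable {X : Type} [TopologicalSpace X]

/-- `s` is the sequence of the Birkhoff sums of `f` along the orbit `o` of `g`. -/
def Along (g : X ≃ₜ X) (f : C(X, ℝ)) (o : ℤ → X) (s : ℤ → ℝ) : Prop :=
  (∀ i, o (i + 1) = g (o i)) ∧ s 0 = 0 ∧ ∀ i, s (i + 1) = s i + f (o i)

theorem Along.shift {g : X ≃ₜ X} {f : C(X, ℝ)} {o : ℤ → X} {s : ℤ → ℝ} (h : Along g f o s)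
    (j : ℤ) : Along g f (fun i => o (i + j)) (fun i => s (i + j) - s j) := by
  refine ⟨fun i => ?_, ?_, fun i => ?_⟩
  · have := h.1 (i + j)
    rw [← this]
    ring_nf
  · simp
  · have := h.2.2 (i + j)
    have h2 : i + 1 + j = i + j + 1 := by ring
    simp only [h2, this]
    ring

theorem exists_along (g : X ≃ₜ X) (f : C(X, ℝ)) (x : X) : ∃ (o : ℤ → X) (s : ℤ → ℝ),
    Along g f o s ∧ o 0 = x ∧ (∀ k : ℕ, o k = g^[k] x) ∧
      ∀ k : ℕ, s k = ∑ i ∈ Finset.range k, f (g^[i] x) := by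
  set o : ℤ → X := fun i => if 0 ≤ i then g^[i.toNat] x else g.symm^[(-i).toNat] x with ho
  have ho1 : ∀ i, o (i + 1) = g (o i) := by
    intro i
    rcases le_or_gt 0 i with hi | hi
    · obtain ⟨m, rfl⟩ := Int.eq_ofNat_of_zero_le hi
      have h1 : (0 : ℤ) ≤ (m : ℤ) + 1 := by omega
      have h2 : ((m : ℤ) + 1).toNat = m + 1 := by omega
      simp only [ho, hi, h1, if_true, h2, Int.toNat_natCast, Function.iterate_succ_apply']
    · obtain ⟨m, hm⟩ : ∃ m : ℕ, i = -((m : ℤ) + 1) := ⟨(-i - 1).toNat, by omega⟩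
      have h1 : ¬ (0 ≤ i) := not_le.2 hi
      have h3 : (-i).toNat = m + 1 := by omega
      have h4 : g (g.symm^[m + 1] x) = g.symm^[m] x := by
        rw [Function.iterate_succ_apply', Homeomorph.apply_symm_apply]
      rcases Nat.eq_zero_or_pos m with rfl | hm0
      · have h5 : i + 1 = 0 := by omega
        rw [h5]
        simp only [ho, h1, le_refl, if_true, if_false, h3]
        rw [h4]
        rfl
      · have h5 : ¬ (0 ≤ i + 1) := by omega
        have h6 : (-(i + 1)).toNat = m := by omega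
        simp only [ho, h1, h5, if_false, h3, h6]
        exact h4.symm
  have ho2 : ∀ k : ℕ, o k = g^[k] x := by
    intro k
    have h1 : (0 : ℤ) ≤ (k : ℤ) := by omega
    simp only [ho, h1, if_true, Int.toNat_natCast]
  set s : ℤ → ℝ := fun i => ∑ l ∈ Finset.range i.toNat, f (o l) -
    ∑ l ∈ Finset.range (-i).toNat, f (o (-((l : ℤ) + 1))) with hs
  refine ⟨o, s, ⟨ho1, by simp [hs], fun i => ?_⟩, ?_, ho2, fun k => ?_⟩
  · rcases le_or_gt 0 i with hi | hi
    · obtain ⟨m, rfl⟩ := Int.eq_ofNat_of_zero_le hi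
      have h2 : ((m : ℤ) + 1).toNat = m + 1 := by omega
      have h3 : (-((m : ℤ) + 1)).toNat = 0 := by omega
      have h4 : (-(m : ℤ)).toNat = 0 := by omega
      simp only [hs, h2, h3, h4, Int.toNat_natCast, Finset.sum_range_succ, Finset.sum_range_zero]
      ring
    · obtain ⟨m, hm⟩ : ∃ m : ℕ, i = -((m : ℤ) + 1) := ⟨(-i - 1).toNat, by omega⟩
      have h2 : i.toNat = 0 := by omega
      have h3 : (i + 1).toNat = 0 := by omega
      have h4 : (-i).toNat = m + 1 := by omega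
      have h5 : (-(i + 1)).toNat = m := by omega
      simp only [hs, h2, h3, h4, h5, Finset.sum_range_succ, Finset.sum_range_zero]
      rw [hm]
      ring
  · exact ho2 0
  · have h4 : (-(k : ℤ)).toNat = 0 := by omega
    simp only [hs, h4, Int.toNat_natCast, Finset.sum_range_zero, sub_zero, ho2]

theorem sum_choose_fwd (k e : ℕ) :
    ∑ l ∈ Finset.range k, ((k - 1 - l).choose e : ℝ) = (k.choose (e + 1) : ℝ) := by
  rw [Finset.sum_range_reflect (fun m => ((m.choose e : ℕ) : ℝ)) k]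
  induction k with
  | zero => simp
  | succ k ih =>
    rw [Finset.sum_range_succ, ih, Nat.choose_succ_succ]
    push_cast
    ring

theorem sum_choose_bwd (k e : ℕ) :
    ∑ l ∈ Finset.range (k + 1), ((k - l + e).choose e : ℝ) =
      ((k + 1 + e).choose (e + 1) : ℝ) := by
  have h1 := Finset.sum_range_reflect (fun m => (((m + e).choose e : ℕ) : ℝ)) (k + 1)
  simp only [Nat.add_sub_cancel] at h1
  rw [h1]
  clear h1
  induction k with
  | zero => simp [add_comm 1 e]
  | succ k ih =>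
    rw [Finset.sum_range_succ, ih]
    have h2 : k + 1 + 1 + e = (k + 1 + e) + 1 := by ring
    rw [h2, Nat.choose_succ_succ]
    push_cast
    ring

/-- the forward means -/
noncomputable def Qf (e : ℕ) (s : ℤ → ℝ) (k : ℕ) : ℝ :=
  ∑ l ∈ Finset.range k, ((k - 1 - l).choose e : ℝ) * s l

/-- the backward means -/
noncomputable def Qb (e : ℕ) (s : ℤ → ℝ) (k : ℕ) : ℝ :=
  ∑ l ∈ Finset.range (k + 1), ((k - l + e).choose e : ℝ) * s (-(l : ℤ))

theorem Qf_succ {g : X ≃ₜ X} {f : C(X, ℝ)} {o : ℤ → X} {s : ℤ → ℝ} (h : Along g f o s)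
    (e k : ℕ) : Qf e s (k + 1) = Qf e (fun i => s (i + 1) - s 1) k +
      (k.choose (e + 1) : ℝ) * f (o 0) := by
  have h1 : s 1 = f (o 0) := by
    have := h.2.2 0
    rw [h.2.1, zero_add, zero_add] at this
    exact this
  rw [Qf, Finset.sum_range_succ', Qf, ← sum_choose_fwd, Finset.sum_mul, ← Finset.sum_add_distrib]
  have h2 : (s ((0 : ℕ) : ℤ)) = 0 := by
    rw [Nat.cast_zero]
    exact h.2.1
  rw [h2, mul_zero, add_zero]
  refine Finset.sum_congr rfl fun l hl => ?_
  have h3 : k + 1 - 1 - (l + 1) = k - 1 - l := by omega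
  rw [h3]
  push_cast
  rw [← h1]
  ring

theorem Qb_succ {g : X ≃ₜ X} {f : C(X, ℝ)} {o : ℤ → X} {s : ℤ → ℝ} (h : Along g f o s)
    (e k : ℕ) : Qb e s (k + 1) = Qb e (fun i => s (i + (-1)) - s (-1)) k -
      ((k + 1 + e).choose (e + 1) : ℝ) * f (o (-1)) := by
  have h1 : s (-1) = - f (o (-1)) := by
    have := h.2.2 (-1)
    rw [show (-1 : ℤ) + 1 = 0 by ring, h.2.1] at this
    linarith
  rw [Qb, Finset.sum_range_succ', Qb, ← sum_choose_bwd, Finset.sum_mul, ← Finset.sum_sub_distrib]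
  have h2 : (s (-((0 : ℕ) : ℤ))) = 0 := by
    rw [Nat.cast_zero, neg_zero]
    exact h.2.1
  rw [h2, mul_zero, add_zero]
  refine Finset.sum_congr rfl fun l hl => ?_
  have h3 : k + 1 - (l + 1) + e = k - l + e := by omega
  have h4 : (-(l : ℤ) + (-1)) = -(((l + 1 : ℕ) : ℤ)) := by push_cast; ring
  rw [h3, h4, h1]
  ring

theorem Qf_le (g : X ≃ₜ X) [CompactSpace X] (e : ℕ) (a : ℕ → C(X, ℝ)) (k : ℕ) :
    ∀ (o : ℤ → X) (s : ℤ → ℝ), Along g (a (e + 1)) o s →
      Qf e s k ≤ VF g (e + 1) a k (o 0) +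
        ∑ j ∈ Finset.range (e + 1), ‖a j‖ * (k.choose (j + 1) : ℝ) := by
  induction k with
  | zero =>
    intro o s _
    simp [Qf, VF]
  | succ k ih =>
    intro o s h
    have h1 := ih _ _ (h.shift 1)
    rw [Qf_succ h, VF_succ, Finset.sum_range_succ]
    have h2 : g (o 0) = o (0 + 1) := (h.1 0).symm
    rw [h2]
    have h3 : ∑ j ∈ Finset.range (e + 1), bc (k : ℤ) j * a j (o 0) ≥
        -∑ j ∈ Finset.range (e + 1), ‖a j‖ * (k.choose j : ℝ) := by
      rw [← Finset.sum_neg_distrib]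
      refine Finset.sum_le_sum fun j _ => ?_
      rw [bc_nat]
      have h4 : -‖a j‖ ≤ a j (o 0) := by
        have := (a j).norm_coe_le_norm (o 0)
        rw [Real.norm_eq_abs] at this
        exact (abs_le.1 this).1
      have h5 : (0 : ℝ) ≤ (k.choose j : ℝ) := by positivity
      nlinarith
    have h6 : ∑ j ∈ Finset.range (e + 1), ‖a j‖ * ((k + 1).choose (j + 1) : ℝ) =
        ∑ j ∈ Finset.range (e + 1), ‖a j‖ * (k.choose (j + 1) : ℝ) +
          ∑ j ∈ Finset.range (e + 1), ‖a j‖ * (k.choose j : ℝ) := by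
      rw [← Finset.sum_add_distrib]
      refine Finset.sum_congr rfl fun j _ => ?_
      rw [Nat.choose_succ_succ]
      push_cast
      ring
    rw [h6, bc_nat]
    linarith

theorem Qb_le (g : X ≃ₜ X) [CompactSpace X] (e : ℕ) (he : Even (e + 1)) (a : ℕ → C(X, ℝ))
    (k : ℕ) : ∀ (o : ℤ → X) (s : ℤ → ℝ), Along g (a (e + 1)) o s →
      Qb e s k ≤ VB g (e + 1) a k (o 0) +
        ∑ j ∈ Finset.range (e + 1), ‖a j‖ * ((k + j).choose (j + 1) : ℝ) := by
  induction k with
  | zero =>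
    intro o s h
    have h0 : ∑ j ∈ Finset.range (e + 1), ‖a j‖ * ((0 + j).choose (j + 1) : ℝ) = 0 := by
      refine Finset.sum_eq_zero fun j _ => ?_
      rw [zero_add, Nat.choose_succ_self]
      simp
    rw [h0]
    simp [Qb, VB, h.2.1]
  | succ k ih =>
    intro o s h
    have h1 := ih _ _ (h.shift (-1))
    rw [Qb_succ h, VB_succ, Finset.sum_range_succ]
    have h2 : g.symm (o 0) = o (0 + (-1)) := by
      rw [Homeomorph.symm_apply_eq, zero_add]
      have := h.1 (-1)
      rw [show (-1 : ℤ) + 1 = 0 by ring] at this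
      exact this
    rw [h2, bc_neg k (e + 1), he.neg_one_pow, one_mul]
    have h3 : ∑ j ∈ Finset.range (e + 1), bc (-((k : ℤ) + 1)) j * a j (o (0 + (-1))) ≤
        ∑ j ∈ Finset.range (e + 1), ‖a j‖ * ((k + j).choose j : ℝ) := by
      refine Finset.sum_le_sum fun j _ => ?_
      have h4 : |a j (o (0 + (-1)))| ≤ ‖a j‖ := by
        have := (a j).norm_coe_le_norm (o (0 + (-1)))
        rwa [Real.norm_eq_abs] at this
      calc bc (-((k : ℤ) + 1)) j * a j (o (0 + (-1)))
          ≤ |bc (-((k : ℤ) + 1)) j * a j (o (0 + (-1)))| := le_abs_self _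
        _ = ((k + j).choose j : ℝ) * |a j (o (0 + (-1)))| := by rw [abs_mul, abs_bc_neg]
        _ ≤ ((k + j).choose j : ℝ) * ‖a j‖ := mul_le_mul_of_nonneg_left h4 (by positivity)
        _ = _ := mul_comm _ _
    have h6 : ∑ j ∈ Finset.range (e + 1), ‖a j‖ * ((k + 1 + j).choose (j + 1) : ℝ) =
        ∑ j ∈ Finset.range (e + 1), ‖a j‖ * ((k + j).choose (j + 1) : ℝ) +
          ∑ j ∈ Finset.range (e + 1), ‖a j‖ * ((k + j).choose j : ℝ) := by
      rw [← Finset.sum_add_distrib]
      refine Finset.sum_congr rfl fun j _ => ?_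
      rw [show k + 1 + j = (k + j) + 1 by ring, Nat.choose_succ_succ]
      push_cast
      ring
    rw [h6]
    have h7 : (k + 1 + e).choose (e + 1) = (k + (e + 1)).choose (e + 1) := by
      congr 1
      ring
    rw [h7]
    have h8 : (0 : ℤ) + (-1) = -1 := by ring
    rw [h8] at h1 h3 ⊢
    linarith

end Pool.Agent.H51.LZ
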