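import Pool.Agent.H51.LZ.Ch

/-!
# The potentials of the iterated pull-backs
-/

set_option autoImplicit false

open Set Filter Topology Metric MeasureTheory
open scoped Manifold

namespace Pool.Agent.H51.LZ

variable {n : ℕ} {X : Type} [TopologicalSpace X] [ChartedSpace (Cn n) X]

theorem IsDisc.comp {U U' : Set X} {h : ℂ → X} (hd : IsDisc n U h) {g : X → X}
    (hg : MDifferentiable 𝓘(ℂ, Cn n) 𝓘(ℂ, Cn n) g) (hU : ∀ x ∈ U, g x ∈ U') :
    IsDisc n U' (fun z => g (h z)) := by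
  obtain ⟨⟨R, hR, hm⟩, hmap⟩ := hd
  exact ⟨⟨R, hR, (hg.mdifferentiableOn (s := univ)).comp hm fun z _ => mem_univ _⟩,
    fun z hz => hU _ (hmap z hz)⟩

theorem Psh.comp {U U' : Set X} {f : X → EReal} (hf : Psh n U' f) {g : X → X}
    (hg : MDifferentiable 𝓘(ℂ, Cn n) 𝓘(ℂ, Cn n) g) (hU : ∀ x ∈ U, g x ∈ U') :
    Psh n U (fun x => f (g x)) :=
  ⟨hf.1.comp hg.continuous.continuousOn hU, fun x hx => hf.2.1 _ (hU x hx),
    fun _ hd b hb hle => hf.2.2 _ (hd.comp hg hU) b hb hle⟩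

namespace Pluriharmonic

theorem mono {U U' : Set X} {f : X → ℝ} (hf : Pluriharmonic n U f) (hU : U' ⊆ U) :
    Pluriharmonic n U' f := ⟨hf.1.mono hU, fun h hd => hf.2 h (hd.mono hU)⟩

theorem congr {U : Set X} {f f' : X → ℝ} (hf : Pluriharmonic n U f) (h : ∀ x ∈ U, f' x = f x) :
    Pluriharmonic n U f' := by
  refine ⟨hf.1.congr h, fun k hd => ?_⟩
  rw [h _ (hd.2 0 (by simp)), hf.2 k hd]
  refine Real.circleAverage_congr_sphere fun z hz => ?_
  exact (h _ (hd.2 z (by simpa using (le_of_eq (by simpa using hz : ‖z‖ = 1))))).symm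

theorem integrable {U : Set X} {f : X → ℝ} (hf : ContinuousOn f U) {h : ℂ → X}
    (hd : IsDisc n U h) : CircleIntegrable (fun z => f (h z)) 0 1 := by
  refine ContinuousOn.circleIntegrable' ?_
  rw [abs_one]
  exact (hf.comp hd.continuousOn fun z hz => hd.2 z (by simpa using hz)).mono
    sphere_subset_closedBall

theorem add {U : Set X} {f f' : X → ℝ} (hf : Pluriharmonic n U f) (hf' : Pluriharmonic n U f') :
    Pluriharmonic n U (fun x => f x + f' x) := by
  refine ⟨hf.1.add hf'.1, fun h hd => ?_⟩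
  rw [Real.circleAverage_fun_add (integrable hf.1 hd) (integrable hf'.1 hd), ← hf.2 h hd,
    ← hf'.2 h hd]

theorem const_mul {U : Set X} {f : X → ℝ} (hf : Pluriharmonic n U f) (c : ℝ) :
    Pluriharmonic n U (fun x => c * f x) := by
  refine ⟨hf.1.const_smul c, fun h hd => ?_⟩
  have h1 := Real.circleAverage_fun_smul (a := c) (f := fun z => f (h z)) (c := 0) (R := 1)
  simp only [smul_eq_mul] at h1
  rw [h1, ← hf.2 h hd]

theorem zero (U : Set X) : Pluriharmonic n U (fun _ => (0 : ℝ)) :=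
  ⟨continuousOn_const, fun h _ => by rw [Real.circleAverage_const]⟩

theorem sum {U : Set X} {ι : Type} (s : Finset ι) {f : ι → X → ℝ}
    (hf : ∀ i ∈ s, Pluriharmonic n U (f i)) : Pluriharmonic n U (fun x => ∑ i ∈ s, f i x) := by
  classical
  induction s using Finset.induction_on with
  | empty => simpa using zero (n := n) U
  | insert i s hi ih =>
    have h1 := (hf i (Finset.mem_insert_self i s)).add
      (ih fun j hj => hf j (Finset.mem_insert_of_mem hj))
    exact h1.congr fun x _ => Finset.sum_insert hi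

theorem comp {U U' : Set X} {f : X → ℝ} (hf : Pluriharmonic n U' f) {g : X → X}
    (hg : MDifferentiable 𝓘(ℂ, Cn n) 𝓘(ℂ, Cn n) g) (hU : ∀ x ∈ U, g x ∈ U') :
    Pluriharmonic n U (fun x => f (g x)) :=
  ⟨hf.1.comp hg.continuous.continuousOn hU, fun _ hd => hf.2 _ (hd.comp hg hU)⟩

end Pluriharmonic

/-- binomial coefficients of integers as real numbers -/
noncomputable def bc (k : ℤ) (j : ℕ) : ℝ := ((Ring.choose k j : ℤ) : ℝ)

theorem bc_zero (k : ℤ) : bc k 0 = 1 := by simp [bc]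

theorem bc_succ (k : ℤ) (j : ℕ) : bc (k + 1) (j + 1) = bc k j + bc k (j + 1) := by
  simp only [bc, Ring.choose_succ_succ, Int.cast_add]

theorem bc_nat (k j : ℕ) : bc (k : ℤ) j = (k.choose j : ℝ) := by
  simp only [bc, Ring.choose_natCast, Int.cast_natCast]

theorem bc_sum (k : ℤ) (d : ℕ) (u : ℕ → ℝ) (hu : u (d + 1) = 0) :
    ∑ j ∈ Finset.range (d + 1), bc k j * (u j + u (j + 1)) =
      ∑ j ∈ Finset.range (d + 1), bc (k + 1) j * u j := by
  rw [Finset.sum_range_succ' (fun j => bc (k + 1) j * u j)]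
  simp only [mul_add, Finset.sum_add_distrib]
  rw [Finset.sum_range_succ' (fun j => bc k j * u j), Finset.sum_range_succ (fun j => bc k j * u (j + 1)),
    hu, bc_zero, bc_zero]
  have h1 : ∀ j, bc (k + 1) (j + 1) * u (j + 1) = bc k j * u (j + 1) + bc k (j + 1) * u (j + 1) := by
    intro j
    rw [bc_succ]
    ring
  simp only [h1, Finset.sum_add_distrib]
  ring

namespace Currents

variable (T : Currents n X) (d : ℕ) (g : X ≃ₜ X)

/-- the potential of `sum_j C(k,j) T_j` on `V p` -/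
noncomputable def P (k : ℤ) (p x : X) : ℝ := ∑ j ∈ Finset.range (d + 1), bc k j * T.u j p x

/-- `(g^k)^* T_0 = sum_j C(k,j) T_j + dd^c F` -/
def Is (k : ℤ) (F : X → ℝ) : Prop :=
  ∀ y p q, y ∈ T.V p → (g ^ k) y ∈ T.V q → ∃ O : Set X, IsOpen O ∧ y ∈ O ∧
    Pluriharmonic n O (fun x => T.u 0 q ((g ^ k) x) - T.P d k p x - F x)

variable {T d g}

theorem Is.zero : T.Is d g 0 (fun _ => 0) := by
  intro y p q hp hq
  refine ⟨T.V q ∩ T.V p, (T.isOpen_V q).inter (T.isOpen_V p), ⟨?_, hp⟩, (T.pluri 0 q p).congr ?_⟩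
  · simpa using hq
  · intro x _
    have h1 : T.P d 0 p x = T.u 0 p x := by
      rw [P, Finset.sum_eq_single 0]
      · simp [bc_zero]
      · intro j _ hj
        obtain ⟨i, rfl⟩ := Nat.exists_eq_succ_of_ne_zero hj
        have : bc 0 (i + 1) = 0 := by simp [bc]
        rw [Nat.succ_eq_add_one, this, zero_mul]
      · intro h
        exact absurd (Finset.mem_range.2 (Nat.succ_pos d)) h
    rw [h1]
    simp

variable (hg : MDifferentiable 𝓘(ℂ, Cn n) 𝓘(ℂ, Cn n) g)
  (hg' : MDifferentiable 𝓘(ℂ, Cn n) 𝓘(ℂ, Cn n) g.symm)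
  (hzero : ∀ p x, T.u (d + 1) p x = 0) {a : ℕ → X → ℝ}
  (hrel : ∀ j ≤ d, ∀ p q, Pluriharmonic n (T.V p ∩ g ⁻¹' T.V q)
    (fun x => T.u j q (g x) - T.u j p x - T.u (j + 1) p x - a j x))

include hg hzero hrel

theorem Is.up {k : ℤ} {F : X → ℝ} (h : T.Is d g k F) :
    T.Is d g (k + 1) (fun x => F (g x) + ∑ j ∈ Finset.range (d + 1), bc k j * a j x) := by
  intro y p q hp hq
  have e1 : ∀ x, (g ^ (k + 1)) x = (g ^ k) (g x) := fun x => by
    rw [zpow_add_one, Homeomorph.mul_apply]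
  rw [e1] at hq
  obtain ⟨O, hO, hyO, hPH⟩ := h (g y) (g y) q (T.mem_V _) hq
  refine ⟨g ⁻¹' O ∩ (T.V p ∩ g ⁻¹' T.V (g y)), ?_, ⟨hyO, hp, T.mem_V _⟩, ?_⟩
  · exact (hO.preimage g.continuous).inter
      ((T.isOpen_V p).inter ((T.isOpen_V _).preimage g.continuous))
  have h1 := (hPH.comp (U := g ⁻¹' O ∩ (T.V p ∩ g ⁻¹' T.V (g y))) hg (fun x hx => hx.1))
  have h2 : Pluriharmonic n (g ⁻¹' O ∩ (T.V p ∩ g ⁻¹' T.V (g y))) (fun x =>
      ∑ j ∈ Finset.range (d + 1),
        bc k j * (T.u j (g y) (g x) - T.u j p x - T.u (j + 1) p x - a j x)) := by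
    refine Pluriharmonic.sum _ fun j hj => ?_
    exact ((hrel j (Nat.lt_succ_iff.1 (Finset.mem_range.1 hj)) p (g y)).mono
      fun x hx => hx.2).const_mul _
  refine (h1.add h2).congr fun x _ => ?_
  have h3 := bc_sum k d (fun j => T.u j p x) (hzero p x)
  simp only [e1, P]
  rw [← h3]
  have h4 : ∑ j ∈ Finset.range (d + 1),
        bc k j * (T.u j (g y) (g x) - T.u j p x - T.u (j + 1) p x - a j x) =
      ∑ j ∈ Finset.range (d + 1), bc k j * T.u j (g y) (g x) -
      ∑ j ∈ Finset.range (d + 1), bc k j * (T.u j p x + T.u (j + 1) p x) -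
      ∑ j ∈ Finset.range (d + 1), bc k j * a j x := by
    rw [← Finset.sum_sub_distrib, ← Finset.sum_sub_distrib]
    exact Finset.sum_congr rfl fun j _ => by ring
  rw [h4]
  ring

omit hg in
include hg' in
theorem Is.down {k : ℤ} {F : X → ℝ} (h : T.Is d g (k + 1) F) :
    T.Is d g k (fun x => F (g.symm x) - ∑ j ∈ Finset.range (d + 1), bc k j * a j (g.symm x)) := by
  intro y p q hp hq
  have e1 : ∀ x, (g ^ k) x = (g ^ (k + 1)) (g.symm x) := fun x => by
    rw [zpow_add_one, Homeomorph.mul_apply, Homeomorph.apply_symm_apply]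
  rw [e1] at hq
  obtain ⟨O, hO, hyO, hPH⟩ := h (g.symm y) (g.symm y) q (T.mem_V _) hq
  set p' := g.symm y with hp'
  -- on `W`
  set W : Set X := O ∩ (T.V p' ∩ g ⁻¹' T.V p) with hW
  have hWo : IsOpen W := hO.inter ((T.isOpen_V p').inter ((T.isOpen_V p).preimage g.continuous))
  have hyW : p' ∈ W := by
    refine ⟨hyO, T.mem_V _, ?_⟩
    rw [mem_preimage, hp', Homeomorph.apply_symm_apply]
    exact hp
  have h2 : Pluriharmonic n W (fun x =>
      ∑ j ∈ Finset.range (d + 1),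
        (- bc k j) * (T.u j p (g x) - T.u j p' x - T.u (j + 1) p' x - a j x)) := by
    refine Pluriharmonic.sum _ fun j hj => ?_
    exact ((hrel j (Nat.lt_succ_iff.1 (Finset.mem_range.1 hj)) p' p).mono
      fun x hx => hx.2).const_mul _
  have h3 := ((hPH.mono (U' := W) fun x hx => hx.1).add h2)
  refine ⟨g.symm ⁻¹' W, hWo.preimage g.symm.continuous, hyW, ?_⟩
  refine (h3.comp (U := g.symm ⁻¹' W) hg' (fun x hx => hx)).congr fun x _ => ?_
  have h4 := bc_sum k d (fun j => T.u j p' (g.symm x)) (hzero p' _)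
  simp only [e1, P]
  rw [← h4]
  simp only [Homeomorph.apply_symm_apply]
  have h5 : ∑ j ∈ Finset.range (d + 1),
        (- bc k j) * (T.u j p x - T.u j p' (g.symm x) - T.u (j + 1) p' (g.symm x) -
          a j (g.symm x)) =
      - ∑ j ∈ Finset.range (d + 1), bc k j * T.u j p x +
      ∑ j ∈ Finset.range (d + 1), bc k j * (T.u j p' (g.symm x) + T.u (j + 1) p' (g.symm x)) +
      ∑ j ∈ Finset.range (d + 1), bc k j * a j (g.symm x) := by
    rw [← Finset.sum_neg_distrib, ← Finset.sum_add_distrib, ← Finset.sum_add_distrib]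
    exact Finset.sum_congr rfl fun j _ => by ring
  rw [h5]
  ring

omit hzero hrel hg in
theorem mdifferentiable_zpow (hg : MDifferentiable 𝓘(ℂ, Cn n) 𝓘(ℂ, Cn n) g)
    (hg' : MDifferentiable 𝓘(ℂ, Cn n) 𝓘(ℂ, Cn n) g.symm) (k : ℤ) :
    MDifferentiable 𝓘(ℂ, Cn n) 𝓘(ℂ, Cn n) (g ^ k : X ≃ₜ X) := by
  induction k using Int.induction_on with
  | zero =>
    have : ((g ^ (0 : ℤ) : X ≃ₜ X) : X → X) = id := by
      ext x
      simp
    rw [this]
    exact mdifferentiable_id
  | succ k ih =>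
    have : ((g ^ ((k : ℤ) + 1) : X ≃ₜ X) : X → X) = (g ^ (k : ℤ) : X ≃ₜ X) ∘ g := by
      ext x
      rw [zpow_add_one, Homeomorph.mul_apply, Function.comp_apply]
    rw [this]
    exact ih.comp hg
  | pred k ih =>
    have : ((g ^ (-(k : ℤ) - 1) : X ≃ₜ X) : X → X) = (g ^ (-(k : ℤ)) : X ≃ₜ X) ∘ g.symm := by
      ext x
      rw [zpow_sub_one, Homeomorph.mul_apply, Function.comp_apply, Homeomorph.inv_apply]
    rw [this]
    exact ih.comp hg'

omit hzero hrel hg in
/-- positivity of the pull-backs -/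
theorem Is.psh (hg : MDifferentiable 𝓘(ℂ, Cn n) 𝓘(ℂ, Cn n) g)
    (hg' : MDifferentiable 𝓘(ℂ, Cn n) 𝓘(ℂ, Cn n) g.symm)
    (hpos : ∀ p, Psh n (T.V p) (fun x => (T.u 0 p x : EReal))) {k : ℤ} {F : X → ℝ}
    (hF : Continuous F) (h : T.Is d g k F) (p : X) :
    Psh n (T.V p) (fun x => ((T.P d k p x + F x : ℝ) : EReal)) := by
  have hPc : ContinuousOn (T.P d k p) (T.V p) := by
    unfold P
    exact continuousOn_finsetSum _ fun j _ => continuousOn_const.mul (T.cont j p)
  refine psh_of_local fun y hy => ?_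
  set q := (g ^ k) y with hq
  obtain ⟨O, hO, hyO, hPH⟩ := h y p q hy (T.mem_V _)
  set W : Set X := O ∩ ((g ^ k : X ≃ₜ X) ⁻¹' T.V q ∩ T.V p) with hW
  refine ⟨W, hO.inter (((T.isOpen_V q).preimage (g ^ k : X ≃ₜ X).continuous).inter
    (T.isOpen_V p)), ⟨hyO, T.mem_V _, hy⟩, ?_⟩
  refine psh_of_le_average ((hPc.mono fun x hx => hx.2.2).add hF.continuousOn) ?_
  intro c hd
  have h1 := (hpos q).le_average (T.cont 0 q)
    (hd.comp (mdifferentiable_zpow hg hg' k) (fun x hx => hx.2.1))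
  have h2 := hPH.2 c (hd.mono fun x hx => hx.1)
  have i1 : CircleIntegrable (fun z => T.u 0 q ((g ^ k) (c z))) 0 1 :=
    Pluriharmonic.integrable (U := T.V q) (T.cont 0 q)
      (hd.comp (mdifferentiable_zpow hg hg' k) (fun x hx => hx.2.1))
  have i2 : CircleIntegrable (fun z => T.P d k p (c z) + F (c z)) 0 1 :=
    Pluriharmonic.integrable (U := W) ((hPc.mono fun x hx => hx.2.2).add hF.continuousOn) hd
  have h3 : (fun z => T.u 0 q ((g ^ k) (c z)) - T.P d k p (c z) - F (c z)) =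
      fun z => T.u 0 q ((g ^ k) (c z)) - (T.P d k p (c z) + F (c z)) := by
    ext z
    ring
  rw [h3, Real.circleAverage_fun_sub i1 i2] at h2
  linarith

end Currents

end Pool.Agent.H51.LZ
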