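import Pool.Agent.H15.SK.Stab
import Pool.Agent.H51.LZ.Log

/-!
# The theorem with the logarithmic bound along orbits
-/

set_option autoImplicit false

open Set Filter Topology Metric MeasureTheory
open scoped Manifold NNReal ENNReal

namespace Pool.Agent.H51.LZ

open Pool.Agent.H36.LZ Pool.Agent.H15.SK

variable {n : ℕ} {X : Type} [TopologicalSpace X] [ChartedSpace (Cn n) X]

theorem add_sum_iterate {X : Type} {g : X → X} {b : X → ℝ} {φ : X → EReal}
    (h : ∀ x, φ x = ((b x : ℝ) : EReal) + φ (g x)) (k : ℕ) : ∀ x,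
    φ x = ((∑ i ∈ Finset.range k, b (g^[i] x) : ℝ) : EReal) + φ (g^[k] x) := by
  induction k with
  | zero => intro x; simp
  | succ k ih =>
    intro x
    rw [Finset.sum_range_succ, Function.iterate_succ_apply', EReal.coe_add, add_assoc,
      ← h (g^[k] x)]
    exact ih x

theorem log_ineq {s t : EReal} {S B : ℝ} (h : s = (S : EReal) + t) (hS : |S| ≤ B) :
    t ≤ s + (B : EReal) ∧ s ≤ t + (B : EReal) := by
  obtain ⟨h1, h2⟩ := abs_le.1 hS
  constructor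
  · rw [h]
    have h3 : (0 : EReal) ≤ (S : EReal) + (B : EReal) := by
      rw [← EReal.coe_add]
      exact_mod_cast (by linarith : (0 : ℝ) ≤ S + B)
    calc t = 0 + t := (zero_add _).symm
      _ ≤ ((S : EReal) + (B : EReal)) + t := add_le_add_left h3 _
      _ = _ := by rw [add_assoc, add_assoc, add_comm (B : EReal)]
  · rw [h, add_comm]
    exact add_le_add le_rfl (by exact_mod_cast h2)

/-- THE THEOREM: minimal singularities, invariance under all automorphisms preserving the class,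
logarithmic bound along the orbits. -/
theorem main_log [T2Space X] [CompactSpace X] [ConnectedSpace X] [IsManifold 𝓘(ℂ, Cn n) 1 X]
    [MeasurableSpace X] [BorelSpace X] (hLEL : OrbitClosure n X) (hodd : OddCase n X)
    (hlog : LogBound) (Ω : VolumeForm n X) (d : ℕ) (g : X ≃ₜ X)
    (hg : MDifferentiable 𝓘(ℂ, Cn n) 𝓘(ℂ, Cn n) g)
    (hg' : MDifferentiable 𝓘(ℂ, Cn n) 𝓘(ℂ, Cn n) g.symm) (T : Currents n X)
    (hpos : ∀ p, Psh n (T.V p) (fun x => (T.u 0 p x : EReal)))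
    (a : ℕ → X → ℝ) (ha : ∀ j, Continuous (a j))
    (hrel : ∀ j < d, ∀ p q, Pluriharmonic n (T.V p ∩ g ⁻¹' T.V q)
      (fun x => T.u j q (g x) - T.u j p x - T.u (j + 1) p x - a j x))
    (hrel_top : ∀ p q, Pluriharmonic n (T.V p ∩ g ⁻¹' T.V q)
      (fun x => T.u d q (g x) - T.u d p x - a d x)) :
    ∃ (φ : X → EReal) (C : ℝ), 0 ≤ C ∧
      (∀ p, Psh n (T.V p) (fun x => (T.u d p x : EReal) + φ x)) ∧
      (∀ h : X ≃ₜ X, MDifferentiable 𝓘(ℂ, Cn n) 𝓘(ℂ, Cn n) h →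
        MDifferentiable 𝓘(ℂ, Cn n) 𝓘(ℂ, Cn n) h.symm → ∀ b : X → ℝ, Continuous b →
        (∀ p q, Pluriharmonic n (T.V p ∩ h ⁻¹' T.V q)
          (fun x => T.u d q (h x) - T.u d p x - b x)) →
        ∃ c : ℝ, ∀ x, φ x = ((b x - c : ℝ) : EReal) + φ (h x)) ∧
      (∀ ψ : X → EReal, (∀ p, Psh n (T.V p) (fun x => (T.u d p x : EReal) + ψ x)) →
        ∃ M : ℝ, ∀ x, ψ x ≤ φ x + (M : EReal)) ∧
      (∀ x, ZeroLelongAt n φ x) ∧
      (∀ K : Set X, IsClosed K → K.Nonempty → MapsTo g K K → ∃ x ∈ K, ((-C : ℝ) : EReal) ≤ φ x) ∧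
      (∀ ν : Measure X, IsProbabilityMeasure ν → MeasurePreserving g ν ν →
        ∫⁻ x, (-(φ x)).toENNReal ∂ν ≤ ENNReal.ofReal C) ∧
      ∀ (k : ℕ) (x : X), φ (g^[k] x) ≤ φ x + ((C * (1 + Real.log (k + 1)) : ℝ) : EReal) ∧
        φ x ≤ φ (g^[k] x) + ((C * (1 + Real.log (k + 1)) : ℝ) : EReal) := by
  obtain ⟨φ₀, c₀, C₀, h1, -, h3, h4, h5⟩ := main_any hLEL hodd Ω d g hg hg' T hpos a ha hrel hrel_top
  obtain ⟨μ, hμ, hgμ⟩ := exists_invariant_measure_all Ω
  have hprob : IsProbabilityMeasure μ := hμ.1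
  have hsup : SupBound n μ := fun V hV hp => Pool.Agent.H36.LZ.sup_le_mean hμ hV hp
  obtain ⟨CL, hCL0, hCL⟩ := birkhoff_log hlog hodd hsup d g (hgμ g hg) hg hg' T hpos a ha hrel
    hrel_top
  obtain ⟨φ, p1, p2', p3⟩ := exists_min_all hμ T d h1
  have p2'' : ∀ h : X ≃ₜ X, MDifferentiable 𝓘(ℂ, Cn n) 𝓘(ℂ, Cn n) h →
      MDifferentiable 𝓘(ℂ, Cn n) 𝓘(ℂ, Cn n) h.symm → ∀ b : X → ℝ, Continuous b →
      (∀ p q, Pluriharmonic n (T.V p ∩ h ⁻¹' T.V q)
        (fun x => T.u d q (h x) - T.u d p x - b x)) →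
      ∀ x, φ x = ((b x - ∫ y, b y ∂μ : ℝ) : EReal) + φ (h x) := by
    intro h hh hh' b hbc hrelh
    refine p2' h (hgμ h hh) hh hh' (fun x => b x - ∫ x, b x ∂μ)
      (hbc.sub continuous_const) ?_ fun p q =>
      ((hrelh p q).add (Plur.const _ (∫ x, b x ∂μ))).congr fun x _ => by ring
    rw [integral_sub]
    · simp
    · exact hbc.integrable_of_hasCompactSupport (HasCompactSupport.of_compactSpace _)
    · exact integrable_const _
  have hlogφ : ∀ (k : ℕ) (x : X), φ (g^[k] x) ≤ φ x + ((CL * (1 + Real.log (k + 1)) : ℝ) : EReal) ∧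
      φ x ≤ φ (g^[k] x) + ((CL * (1 + Real.log (k + 1)) : ℝ) : EReal) := fun k x =>
    log_ineq (add_sum_iterate (p2'' g hg hg' (a d) (ha d) hrel_top) k x) (hCL k x)
  obtain ⟨M, hM⟩ := p3 φ₀ h1
  have hM0 : ∀ x, φ₀ x ≤ φ x + ((max M 0 : ℝ) : EReal) := fun x =>
    (hM x).trans (add_le_add le_rfl (by exact_mod_cast le_max_left M 0))
  have hC0 : 0 ≤ max C₀ 0 + max M 0 := add_nonneg (le_max_right _ _) (le_max_right _ _)
  refine ⟨φ, (max C₀ 0 + max M 0) + CL, add_nonneg hC0 hCL0, p1,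
    fun h hh hh' b hbc hrelh => ⟨_, p2'' h hh hh' b hbc hrelh⟩, p3,
    fun x => zeroLelong_mono hM (h3 x), fun K hK hKne hKg => ?_, fun ν hν hgν => ?_,
    fun k x => ?_⟩
  · obtain ⟨x, hx, hle⟩ := h4 K hK hKne hKg
    refine ⟨x, hx, le_trans ?_ (le_of_le_add (hle.trans (hM0 x)))⟩
    exact_mod_cast (by linarith [le_max_left C₀ 0] :
      -((max C₀ 0 + max M 0) + CL) ≤ -C₀ - max M 0)
  · calc ∫⁻ x, (-(φ x)).toENNReal ∂ν
        ≤ ∫⁻ x, ((-(φ₀ x)).toENNReal + ENNReal.ofReal (max M 0)) ∂ν :=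
          lintegral_mono fun x => neg_toENNReal_le (hM0 x)
      _ = ∫⁻ x, (-(φ₀ x)).toENNReal ∂ν + ENNReal.ofReal (max M 0) := by
          rw [lintegral_add_right _ measurable_const]
          simp
      _ ≤ ENNReal.ofReal (max C₀ 0) + ENNReal.ofReal (max M 0) :=
          add_le_add ((h5 ν hν hgν).trans (ENNReal.ofReal_le_ofReal (le_max_left _ _))) le_rfl
      _ = ENNReal.ofReal (max C₀ 0 + max M 0) :=
          (ENNReal.ofReal_add (le_max_right _ _) (le_max_right _ _)).symm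
      _ ≤ ENNReal.ofReal ((max C₀ 0 + max M 0) + CL) := ENNReal.ofReal_le_ofReal (by linarith)
  · have hl : 0 ≤ 1 + Real.log ((k : ℝ) + 1) := by
      have := Real.log_nonneg (show (1 : ℝ) ≤ (k : ℝ) + 1 by
        have : (0 : ℝ) ≤ k := by positivity
        linarith)
      linarith
    have hle : CL * (1 + Real.log ((k : ℝ) + 1)) ≤
        ((max C₀ 0 + max M 0) + CL) * (1 + Real.log ((k : ℝ) + 1)) :=
      mul_le_mul_of_nonneg_right (by linarith) hl
    have hle' : ((CL * (1 + Real.log ((k : ℝ) + 1)) : ℝ) : EReal) ≤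
        ((((max C₀ 0 + max M 0) + CL) * (1 + Real.log ((k : ℝ) + 1)) : ℝ) : EReal) := by
      exact_mod_cast hle
    exact ⟨(hlogφ k x).1.trans (add_le_add le_rfl hle'),
      (hlogφ k x).2.trans (add_le_add le_rfl hle')⟩

end Pool.Agent.H51.LZ
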