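import Pool.Agent.H51.LZ.Pot

/-!
# The functions `V_k` and their means
-/

set_option autoImplicit false

open Set Filter Topology Metric MeasureTheory
open scoped Manifold

namespace Pool.Agent.H51.LZ

/-! ### binomial coefficients -/

theorem choose_le (k d j : ℕ) (hk : d ≤ k) (hj : j ≤ d) :
    (k.choose j : ℝ) ≤ k.choose d * d.choose j := by
  have h1 : k.choose d * d.choose j = k.choose j * (k - j).choose (d - j) := Nat.choose_mul hj
  have h2 : 0 < (k - j).choose (d - j) := Nat.choose_pos (by omega)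
  have h3 : k.choose j ≤ k.choose d * d.choose j := by
    rw [h1]
    exact Nat.le_mul_of_pos_right _ h2
  exact_mod_cast h3

theorem bc_neg (k j : ℕ) : bc (-((k : ℤ) + 1)) j = (-1) ^ j * ((k + j).choose j : ℝ) := by
  have h1 := Ring.choose_neg ((k : ℤ) + 1) j
  have h2 : ((k : ℤ) + 1 + j - 1) = ((k + j : ℕ) : ℤ) := by push_cast; ring
  rw [h2, Ring.choose_natCast] at h1
  rw [bc, h1, Units.smul_def, Int.coe_negOnePow_natCast, smul_eq_mul]
  push_cast
  ring

theorem abs_bc_neg (k j : ℕ) : |bc (-((k : ℤ) + 1)) j| = ((k + j).choose j : ℝ) := by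
  rw [bc_neg, abs_mul, abs_pow, abs_neg, abs_one, one_pow, one_mul]
  exact abs_of_nonneg (by positivity)

/-- `sum_j |C(k,j)|` -/
noncomputable def Mk (d : ℕ) (k : ℤ) : ℝ := ∑ j ∈ Finset.range (d + 1), |bc k j|

theorem one_le_Mk (d : ℕ) (k : ℤ) : 1 ≤ Mk d k := by
  rw [Mk, Finset.sum_range_succ']
  rw [bc_zero, abs_one]
  have : 0 ≤ ∑ j ∈ Finset.range d, |bc k (j + 1)| := Finset.sum_nonneg fun _ _ => abs_nonneg _
  linarith

theorem sum_choose_real (d : ℕ) : ∑ j ∈ Finset.range (d + 1), (d.choose j : ℝ) = 2 ^ d := by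
  have := Nat.sum_range_choose d
  exact_mod_cast this

theorem Mk_nat_le (d k : ℕ) (hk : d ≤ k) : Mk d k ≤ 2 ^ d * k.choose d := by
  rw [Mk, ← sum_choose_real, Finset.sum_mul]
  refine Finset.sum_le_sum fun j hj => ?_
  rw [bc_nat, abs_of_nonneg (by positivity), mul_comm]
  exact choose_le k d j hk (Nat.lt_succ_iff.1 (Finset.mem_range.1 hj))

theorem choose_shift_le (d k j : ℕ) (hj : j ≤ d) :
    ((k + j).choose j : ℝ) ≤ (k + d).choose d * d.choose j := by
  refine le_trans ?_ (choose_le (k + d) d j (by omega) hj)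
  exact_mod_cast Nat.choose_le_choose j (by omega)

theorem Mk_neg_le (d k : ℕ) : Mk d (-((k : ℤ) + 1)) ≤ 2 ^ d * (k + d).choose d := by
  rw [Mk, ← sum_choose_real, Finset.sum_mul]
  refine Finset.sum_le_sum fun j hj => ?_
  rw [abs_bc_neg, mul_comm]
  exact choose_shift_le d k j (Nat.lt_succ_iff.1 (Finset.mem_range.1 hj))

/-! ### the functions -/

variable {X : Type} [TopologicalSpace X]

/-- `g` as a continuous map -/
def gc (g : X ≃ₜ X) : C(X, X) := ⟨g, g.continuous⟩

@[simp] theorem gc_apply (g : X ≃ₜ X) (x : X) : gc g x = g x := rfl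

/-- the potentials `V_k`, `k ≥ 0` -/
noncomputable def VF (g : X ≃ₜ X) (d : ℕ) (a : ℕ → C(X, ℝ)) : ℕ → C(X, ℝ)
  | 0 => 0
  | k + 1 => (VF g d a k).comp (gc g) + ∑ j ∈ Finset.range (d + 1), bc (k : ℤ) j • a j

/-- the potentials `V_(-k)`, `k ≥ 0` -/
noncomputable def VB (g : X ≃ₜ X) (d : ℕ) (a : ℕ → C(X, ℝ)) : ℕ → C(X, ℝ)
  | 0 => 0
  | k + 1 => (VB g d a k - ∑ j ∈ Finset.range (d + 1), bc (-((k : ℤ) + 1)) j • a j).comp
      (gc g.symm)

theorem VF_succ (g : X ≃ₜ X) (d : ℕ) (a : ℕ → C(X, ℝ)) (k : ℕ) (x : X) :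
    VF g d a (k + 1) x = VF g d a k (g x) +
      ∑ j ∈ Finset.range (d + 1), bc (k : ℤ) j * a j x := by
  simp [VF, ContinuousMap.add_apply]

theorem VB_succ (g : X ≃ₜ X) (d : ℕ) (a : ℕ → C(X, ℝ)) (k : ℕ) (x : X) :
    VB g d a (k + 1) x = VB g d a k (g.symm x) -
      ∑ j ∈ Finset.range (d + 1), bc (-((k : ℤ) + 1)) j * a j (g.symm x) := by
  simp [VB, ContinuousMap.sub_apply]

/-- the value of an invariant functional on `V_k` -/
theorem J_VF (g : X ≃ₜ X) (d : ℕ) (a : ℕ → C(X, ℝ)) (J : C(X, ℝ) →ₗ[ℝ] ℝ)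
    (hJ : ∀ F : C(X, ℝ), J (F.comp (gc g)) = J F) (k : ℕ) :
    J (VF g d a k) = ∑ j ∈ Finset.range (d + 1), bc (k : ℤ) (j + 1) * J (a j) := by
  induction k with
  | zero =>
    simp only [VF, map_zero]
    symm
    refine Finset.sum_eq_zero fun j _ => ?_
    rw [bc_nat]
    simp
  | succ k ih =>
    simp only [VF, map_add, hJ, map_sum, map_smul, smul_eq_mul, ih]
    rw [← Finset.sum_add_distrib]
    refine Finset.sum_congr rfl fun j _ => ?_
    push_cast
    rw [bc_succ]
    ring

theorem J_VB (g : X ≃ₜ X) (d : ℕ) (a : ℕ → C(X, ℝ)) (J : C(X, ℝ) →ₗ[ℝ] ℝ)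
    (hJ : ∀ F : C(X, ℝ), J (F.comp (gc g)) = J F) (k : ℕ) :
    J (VB g d a k) = ∑ j ∈ Finset.range (d + 1), bc (-(k : ℤ)) (j + 1) * J (a j) := by
  have hJ' : ∀ F : C(X, ℝ), J (F.comp (gc g.symm)) = J F := by
    intro F
    rw [← hJ (F.comp (gc g.symm))]
    congr 1
    ext x
    simp
  induction k with
  | zero =>
    simp only [VB, map_zero]
    symm
    refine Finset.sum_eq_zero fun j _ => ?_
    have : bc (-((0 : ℕ) : ℤ)) (j + 1) = 0 := by
      have := bc_nat 0 (j + 1)
      simpa using this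
    rw [this, zero_mul]
  | succ k ih =>
    simp only [VB, hJ', map_sub, map_sum, map_smul, smul_eq_mul, ih]
    rw [← Finset.sum_sub_distrib]
    refine Finset.sum_congr rfl fun j _ => ?_
    have h1 := bc_succ (-((k : ℤ) + 1)) j
    have h2 : -((k : ℤ) + 1) + 1 = -(k : ℤ) := by ring
    rw [h2] at h1
    push_cast
    rw [h1]
    have h3 : (-((k : ℤ) + 1)) = -(k : ℤ) - 1 ∨ True := Or.inr trivial
    ring_nf

/-- the lower bound for the means of `V_k`, `k ≥ d`, from the upper bounds for `V_(-k)` -/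
theorem J_lower (g : X ≃ₜ X) (d : ℕ) (hd : Even d) (a : ℕ → C(X, ℝ)) {C : ℝ}
    (hC : ∀ k x, VB g d a k x ≤ C * Mk d (-(k : ℤ)))
    {S : ℝ} (J : C(X, ℝ) →ₗ[ℝ] ℝ) (hJ : ∀ F : C(X, ℝ), J (F.comp (gc g)) = J F)
    (hJle : ∀ (F : C(X, ℝ)) (c : ℝ), (∀ x, F x ≤ c) → J F ≤ c)
    (hS : ∀ j ≤ d, ∀ x, |a j x| ≤ S) (k : ℕ) (hk : d ≤ k) :
    -(2 ^ d * S) * k.choose d ≤ J (VF g d a k) := by
  have hJa : ∀ j ≤ d, |J (a j)| ≤ S := by
    intro j hj
    rw [abs_le]
    constructor
    · have h1 := hJle (- a j) S (fun x => (neg_le_abs _).trans (hS j hj x))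
      rw [map_neg] at h1
      linarith
    · exact hJle (a j) S (fun x => (le_abs_self _).trans (hS j hj x))
  have hS0 : 0 ≤ S := (abs_nonneg _).trans (hJa 0 (Nat.zero_le _))
  -- first the sign of `J (a d)`
  have hnonneg : 0 ≤ J (a d) := by
    by_contra hneg
    push Not at hneg
    have key : ∀ k : ℕ, - J (a d) * (k + 1) / (d + 1) ≤ (|C| + S) * 2 ^ d := by
      intro k
      have h1 : J (VB g d a (k + 1)) ≤ C * Mk d (-((k : ℤ) + 1)) := by
        have := hJle (VB g d a (k + 1)) _ (hC (k + 1))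
        push_cast at this
        exact this
      rw [J_VB g d a J hJ, Finset.sum_range_succ] at h1
      push_cast at h1
      have h2 : bc (-((k : ℤ) + 1)) (d + 1) = - ((k + (d + 1)).choose (d + 1) : ℝ) := by
        rw [bc_neg, hd.add_one.neg_one_pow]
        ring
      have h3 : C * Mk d (-((k : ℤ) + 1)) ≤ |C| * (2 ^ d * (k + d).choose d) := by
        have h4 := Mk_neg_le d k
        have h5 : 0 ≤ Mk d (-((k : ℤ) + 1)) := zero_le_one.trans (one_le_Mk _ _)
        calc C * Mk d (-((k : ℤ) + 1)) ≤ |C| * Mk d (-((k : ℤ) + 1)) :=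
              mul_le_mul_of_nonneg_right (le_abs_self _) h5
          _ ≤ _ := mul_le_mul_of_nonneg_left h4 (abs_nonneg _)
      have h6 : -(S * (2 ^ d * (k + d).choose d)) ≤
          ∑ j ∈ Finset.range d, bc (-((k : ℤ) + 1)) (j + 1) * J (a j) := by
        have h7 : ∑ j ∈ Finset.range d, |bc (-((k : ℤ) + 1)) (j + 1) * J (a j)| ≤
            S * (2 ^ d * (k + d).choose d) := by
          calc ∑ j ∈ Finset.range d, |bc (-((k : ℤ) + 1)) (j + 1) * J (a j)|
              ≤ ∑ j ∈ Finset.range d, (S * (k + d).choose d) * d.choose (j + 1) := by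
                refine Finset.sum_le_sum fun j hj => ?_
                have hj' := Finset.mem_range.1 hj
                rw [abs_mul, abs_bc_neg]
                have h8 := choose_shift_le d k (j + 1) (by omega)
                have h9 := hJa j (by omega)
                calc ((k + (j + 1)).choose (j + 1) : ℝ) * |J (a j)|
                    ≤ ((k + d).choose d * d.choose (j + 1)) * S :=
                      mul_le_mul h8 h9 (abs_nonneg _) (by positivity)
                  _ = _ := by ring
            _ = (S * (k + d).choose d) * ∑ j ∈ Finset.range d, (d.choose (j + 1) : ℝ) := by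
                rw [Finset.mul_sum]
            _ ≤ (S * (k + d).choose d) * 2 ^ d := by
                refine mul_le_mul_of_nonneg_left ?_ (by positivity)
                rw [← sum_choose_real, Finset.sum_range_succ']
                have : (0 : ℝ) ≤ (d.choose 0 : ℝ) := by positivity
                linarith
            _ = _ := by ring
        have h10 := Finset.abs_sum_le_sum_abs
          (fun j => bc (-((k : ℤ) + 1)) (j + 1) * J (a j)) (Finset.range d)
        have h11 := (abs_le.1 (h10.trans h7)).1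
        exact h11
      rw [h2] at h1
      have h12 : ((k + (d + 1)).choose (d + 1) : ℝ) * (- J (a d)) ≤
          (|C| + S) * 2 ^ d * (k + d).choose d := by
        nlinarith
      -- ratio
      have h13 : ((k + (d + 1)).choose (d + 1) : ℝ) * (d + 1) =
          (k + d + 1 : ℝ) * (k + d).choose d := by
        have := Nat.add_one_mul_choose_eq (k + d) d
        have h14 : ((k + d + 1 : ℕ) : ℝ) * ((k + d).choose d : ℝ) =
            ((k + d + 1).choose (d + 1) : ℝ) * ((d + 1 : ℕ) : ℝ) := by exact_mod_cast this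
        push_cast at h14
        rw [h14]
        rfl
      have h15 : (0 : ℝ) < (k + d).choose d := by exact_mod_cast Nat.choose_pos (by omega)
      have h16 : (0 : ℝ) < (d : ℝ) + 1 := by positivity
      rw [div_le_iff₀ h16]
      have h17 : (k + 1 : ℝ) * (k + d).choose d ≤
          ((k + (d + 1)).choose (d + 1) : ℝ) * (d + 1) := by
        rw [h13]
        have : (0 : ℝ) ≤ d := by positivity
        nlinarith
      have h18 : - J (a d) * (k + 1) * (k + d).choose d ≤
          (|C| + S) * 2 ^ d * (d + 1) * (k + d).choose d := by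
        have h19 : 0 ≤ - J (a d) := by linarith
        calc - J (a d) * (k + 1) * (k + d).choose d
            = - J (a d) * ((k + 1) * (k + d).choose d) := by ring
          _ ≤ - J (a d) * (((k + (d + 1)).choose (d + 1) : ℝ) * (d + 1)) :=
              mul_le_mul_of_nonneg_left h17 h19
          _ = (((k + (d + 1)).choose (d + 1) : ℝ) * (- J (a d))) * (d + 1) := by ring
          _ ≤ ((|C| + S) * 2 ^ d * (k + d).choose d) * (d + 1) :=
              mul_le_mul_of_nonneg_right h12 h16.le
          _ = _ := by ring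
      exact le_of_mul_le_mul_right h18 h15
    obtain ⟨k, hk⟩ := exists_nat_gt ((|C| + S) * 2 ^ d * (d + 1) / (- J (a d)))
    have h1 := key k
    have h2 : (0 : ℝ) < (d : ℝ) + 1 := by positivity
    have h3 : 0 < - J (a d) := by linarith
    rw [div_le_iff₀ h2] at h1
    rw [div_lt_iff₀ h3] at hk
    nlinarith
  -- now the forward direction
  rw [J_VF g d a J hJ, Finset.sum_range_succ]
  have h1 : 0 ≤ bc (k : ℤ) (d + 1) * J (a d) := by
    rw [bc_nat]
    positivity
  have h7 : ∑ j ∈ Finset.range d, |bc (k : ℤ) (j + 1) * J (a j)| ≤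
      2 ^ d * S * k.choose d := by
    calc ∑ j ∈ Finset.range d, |bc (k : ℤ) (j + 1) * J (a j)|
        ≤ ∑ j ∈ Finset.range d, (S * k.choose d) * d.choose (j + 1) := by
          refine Finset.sum_le_sum fun j hj => ?_
          have hj' := Finset.mem_range.1 hj
          rw [abs_mul, bc_nat, abs_of_nonneg (by positivity : (0 : ℝ) ≤ (k.choose (j + 1) : ℝ))]
          have h8 := choose_le k d (j + 1) hk (by omega)
          have h9 := hJa j (by omega)
          calc (k.choose (j + 1) : ℝ) * |J (a j)|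
              ≤ (k.choose d * d.choose (j + 1)) * S :=
                mul_le_mul h8 h9 (abs_nonneg _) (by positivity)
            _ = _ := by ring
      _ = (S * k.choose d) * ∑ j ∈ Finset.range d, (d.choose (j + 1) : ℝ) := by
          rw [Finset.mul_sum]
      _ ≤ (S * k.choose d) * 2 ^ d := by
          refine mul_le_mul_of_nonneg_left ?_ (by positivity)
          rw [← sum_choose_real, Finset.sum_range_succ']
          have : (0 : ℝ) ≤ (d.choose 0 : ℝ) := by positivity
          linarith
      _ = _ := by ring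
  have h10 := Finset.abs_sum_le_sum_abs (fun j => bc (k : ℤ) (j + 1) * J (a j)) (Finset.range d)
  have h11 := (abs_le.1 (h10.trans h7)).1
  linarith

end Pool.Agent.H51.LZ
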